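import Pool.Agent.TH146.MN.Few

/-! Few distinct weights: distribution of the points and the main theorem. -/

set_option autoImplicit false
set_option linter.unusedSectionVars false

namespace Pool.Agent.TH146.MN

open Pool.Agent.TH176.Nag Pool.Agent.TH181.Nag

/-- donors for the rare groups -/
theorem assign {ι κ : Type} [Fintype ι] [Fintype κ] [DecidableEq κ] (gr : ι → κ) (y : κ → ℝ)
    {M : ℝ} (hM : 0 < M) (hy : ∀ l, 0 < y l) (hyM : ∀ l, y l ≤ M) (R : Finset κ)
    (hF : ∀ f, f ∉ R → 2 * M < ((Finset.univ.filter fun i => gr i = f).card : ℝ) * y f)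
    (hA : 14 * M ^ 2 * ((Finset.univ \ R).card : ℝ) + 7 * M ^ 2 * (R.card : ℝ) ≤
      ∑ i with gr i ∉ R, y (gr i) ^ 2) :
    ∀ R' : Finset κ, R' ⊆ R → ∃ φ : ι → κ, (∀ i, gr i ∈ R → φ i = gr i) ∧
      (∀ i, φ i = gr i ∨ φ i ∈ R') ∧
      (∀ r ∈ R', ∃ f, f ∉ R ∧ (∀ i, φ i = r → gr i = r ∨ gr i = f) ∧
        6 * M ^ 2 ≤ ((Finset.univ.filter fun i => φ i = r ∧ gr i = f).card : ℝ) * y f ^ 2) ∧
      (∀ f, f ∉ R → 2 * M < ((Finset.univ.filter fun i => φ i = f).card : ℝ) * y f) ∧
      ∑ i with gr i ∉ R, y (gr i) ^ 2 - 7 * M ^ 2 * (R'.card : ℝ) ≤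
        ∑ i with (gr i ∉ R ∧ φ i = gr i), y (gr i) ^ 2 := by
  classical
  have hM2 : 0 < M ^ 2 := by positivity
  intro R'
  induction R' using Finset.induction_on with
  | empty =>
    intro _
    refine ⟨gr, fun _ _ => rfl, fun _ => Or.inl rfl, fun r hr => absurd hr (Finset.notMem_empty r),
      hF, ?_⟩
    simp
  | insert r R' hr ih =>
    intro hsub
    have hR' : R' ⊆ R := (Finset.subset_insert r R').trans hsub
    have hrR : r ∈ R := hsub (Finset.mem_insert_self r R')
    obtain ⟨φ, h1, h2, h3, h4, h5⟩ := ih hR'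
    -- a donor
    obtain ⟨f, hfR, hf⟩ : ∃ f, f ∉ R ∧
        14 * M ^ 2 ≤ ((Finset.univ.filter fun i => φ i = f).card : ℝ) * y f ^ 2 := by
      by_contra hno
      push Not at hno
      have h6 : ∑ i with (gr i ∉ R ∧ φ i = gr i), y (gr i) ^ 2 ≤
          ∑ f ∈ Finset.univ \ R, 14 * M ^ 2 := by
        rw [← Finset.sum_fiberwise_of_maps_to (g := φ) (t := Finset.univ \ R)
          (fun i hi => by
            have hi' := (Finset.mem_filter.1 hi).2
            rw [Finset.mem_sdiff, hi'.2]
            exact ⟨Finset.mem_univ _, hi'.1⟩)]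
        refine Finset.sum_le_sum fun f hf => ?_
        have hfR : f ∉ R := (Finset.mem_sdiff.1 hf).2
        refine le_trans ?_ (hno f hfR).le
        calc ∑ i ∈ (Finset.univ.filter fun i => gr i ∉ R ∧ φ i = gr i) with φ i = f,
              y (gr i) ^ 2 = ∑ i ∈ (Finset.univ.filter fun i => gr i ∉ R ∧ φ i = gr i) with
              φ i = f, y f ^ 2 := by
              refine Finset.sum_congr rfl fun i hi => ?_
              have h7 := Finset.mem_filter.1 hi
              have h8 := (Finset.mem_filter.1 h7.1).2.2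
              rw [← h8, h7.2]
          _ ≤ ((Finset.univ.filter fun i => φ i = f).card : ℝ) * y f ^ 2 := by
              rw [Finset.sum_const, nsmul_eq_mul]
              refine mul_le_mul_of_nonneg_right ?_ (sq_nonneg _)
              have h9 : ((Finset.univ.filter fun i => gr i ∉ R ∧ φ i = gr i).filter
                  fun i => φ i = f).card ≤ (Finset.univ.filter fun i => φ i = f).card :=
                Finset.card_le_card fun i hi => Finset.mem_filter.2
                  ⟨Finset.mem_univ _, (Finset.mem_filter.1 hi).2⟩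
              exact_mod_cast h9
      rw [Finset.sum_const, nsmul_eq_mul] at h6
      have h10 : (R'.card : ℝ) + 1 ≤ R.card := by
        have := Finset.card_le_card hsub
        rw [Finset.card_insert_of_notMem hr] at this
        exact_mod_cast this
      nlinarith
    have hyf := hy f
    have hyfM := hyM f
    have hyf2 : 0 < y f ^ 2 := by positivity
    have hyfM2 : y f ^ 2 ≤ M ^ 2 := by nlinarith
    obtain ⟨n, hn⟩ : ∃ n : ℕ, n = ⌈6 * M ^ 2 / y f ^ 2⌉₊ := ⟨_, rfl⟩
    have hn1 : 6 * M ^ 2 ≤ n * y f ^ 2 := by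
      have := Nat.le_ceil (6 * M ^ 2 / y f ^ 2)
      rw [← hn, div_le_iff₀ hyf2] at this
      exact this
    have hn2 : n * y f ^ 2 ≤ 7 * M ^ 2 := by
      have h6 : (n : ℝ) < 6 * M ^ 2 / y f ^ 2 + 1 := by
        rw [hn]; exact Nat.ceil_lt_add_one (by positivity)
      have h7 : (n : ℝ) * y f ^ 2 < (6 * M ^ 2 / y f ^ 2 + 1) * y f ^ 2 :=
        mul_lt_mul_of_pos_right h6 hyf2
      have h8 : (6 * M ^ 2 / y f ^ 2 + 1) * y f ^ 2 = 6 * M ^ 2 + y f ^ 2 := by
        field_simp
      linarith
    have hnm : n ≤ (Finset.univ.filter fun i => φ i = f).card := by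
      have h6 : (n : ℝ) * y f ^ 2 ≤ ((Finset.univ.filter fun i => φ i = f).card : ℝ) * y f ^ 2 := by
        linarith
      have h7 := le_of_mul_le_mul_right h6 hyf2
      exact_mod_cast h7
    obtain ⟨Z, hZ, hZn⟩ := Finset.exists_subset_card_eq hnm
    have hZφ : ∀ i ∈ Z, φ i = f := fun i hi => (Finset.mem_filter.1 (hZ hi)).2
    have hZgr : ∀ i ∈ Z, gr i = f := fun i hi => by
      rcases h2 i with h | h
      · rw [← h]; exact hZφ i hi
      · rw [hZφ i hi] at h
        exact absurd (hR' h) hfR
    refine ⟨fun i => if i ∈ Z then r else φ i, ?_, ?_, ?_, ?_, ?_⟩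
    · intro i hi
      have hiZ : i ∉ Z := fun h => hfR (by rw [← hZgr i h]; exact hi)
      simp only [if_neg hiZ]
      exact h1 i hi
    · intro i
      by_cases hiZ : i ∈ Z
      · right
        simp only [if_pos hiZ]
        exact Finset.mem_insert_self r R'
      · simp only [if_neg hiZ]
        rcases h2 i with h | h
        · exact Or.inl h
        · exact Or.inr (Finset.mem_insert_of_mem h)
    · intro r0 hr0
      rcases Finset.mem_insert.1 hr0 with h0 | h0
      · subst h0
        refine ⟨f, hfR, ?_, ?_⟩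
        · intro i hi
          by_cases hiZ : i ∈ Z
          · exact Or.inr (hZgr i hiZ)
          · simp only [if_neg hiZ] at hi
            rcases h2 i with h | h
            · left; rw [← h]; exact hi
            · rw [hi] at h
              exact absurd h hr
        · refine hn1.trans (mul_le_mul_of_nonneg_right ?_ hyf2.le)
          rw [← hZn]
          have : Z.card ≤ (Finset.univ.filter fun i => (if i ∈ Z then r0 else φ i) = r0 ∧
              gr i = f).card := Finset.card_le_card fun i hi => Finset.mem_filter.2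
                ⟨Finset.mem_univ _, by rw [if_pos hi], hZgr i hi⟩
          exact_mod_cast this
      · have hne : r0 ≠ r := fun h => hr (h ▸ h0)
        obtain ⟨f0, hf0, h6, h7⟩ := h3 r0 h0
        refine ⟨f0, hf0, ?_, ?_⟩
        · intro i hi
          by_cases hiZ : i ∈ Z
          · simp only [if_pos hiZ] at hi
            exact absurd hi.symm hne
          · simp only [if_neg hiZ] at hi
            exact h6 i hi
        · refine h7.trans (mul_le_mul_of_nonneg_right ?_ (sq_nonneg _))
          have : (Finset.univ.filter fun i => φ i = r0 ∧ gr i = f0).card ≤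
              (Finset.univ.filter fun i => (if i ∈ Z then r else φ i) = r0 ∧ gr i = f0).card := by
            refine Finset.card_le_card fun i hi => ?_
            have h8 := (Finset.mem_filter.1 hi).2
            have hiZ : i ∉ Z := fun h => hfR (by
              rw [← hZφ i h, h8.1]; exact hR' h0)
            exact Finset.mem_filter.2 ⟨Finset.mem_univ _, by rw [if_neg hiZ]; exact h8.1, h8.2⟩
          exact_mod_cast this
    · intro f0 hf0
      by_cases hff : f0 = f
      · subst hff
        have h6 : ((Finset.univ.filter fun i => φ i = f0) \ Z).card ≤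
            (Finset.univ.filter fun i => (if i ∈ Z then r else φ i) = f0).card := by
          refine Finset.card_le_card fun i hi => ?_
          rw [Finset.mem_sdiff, Finset.mem_filter] at hi
          exact Finset.mem_filter.2 ⟨Finset.mem_univ _, by rw [if_neg hi.2]; exact hi.1.2⟩
        rw [Finset.card_sdiff_of_subset hZ, hZn] at h6
        have h7 : (((Finset.univ.filter fun i => φ i = f0).card : ℝ) - n) ≤
            ((Finset.univ.filter fun i => (if i ∈ Z then r else φ i) = f0).card : ℝ) := by
          have h8 : (((Finset.univ.filter fun i => φ i = f0).card - n : ℕ) : ℝ) ≤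
            ((Finset.univ.filter fun i => (if i ∈ Z then r else φ i) = f0).card : ℝ) := by
            exact_mod_cast h6
          rwa [Nat.cast_sub hnm] at h8
        obtain ⟨m, hm⟩ : ∃ m : ℝ, m = ((Finset.univ.filter fun i => φ i = f0).card : ℝ) - n :=
          ⟨_, rfl⟩
        rw [← hm] at h7
        have h9 : 7 * M ^ 2 ≤ m * y f0 ^ 2 := by
          rw [hm]; nlinarith
        have hm0 : 0 < m := by
          by_contra h
          push Not at h
          nlinarith
        have h10 : 7 * M ≤ m * y f0 := by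
          have h11 : m * y f0 ^ 2 ≤ m * y f0 * M := by
            have : m * y f0 ^ 2 = m * y f0 * y f0 := by ring
            rw [this]
            exact mul_le_mul_of_nonneg_left hyfM (by positivity)
          have h12 : 7 * M * M ≤ m * y f0 * M := by nlinarith
          exact le_of_mul_le_mul_right h12 hM
        have h13 : m * y f0 ≤
            ((Finset.univ.filter fun i => (if i ∈ Z then r else φ i) = f0).card : ℝ) * y f0 :=
          mul_le_mul_of_nonneg_right h7 hyf.le
        linarith
      · refine (h4 f0 hf0).trans_le (mul_le_mul_of_nonneg_right ?_ (hy f0).le)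
        have : (Finset.univ.filter fun i => φ i = f0).card ≤
            (Finset.univ.filter fun i => (if i ∈ Z then r else φ i) = f0).card := by
          refine Finset.card_le_card fun i hi => ?_
          have h8 := (Finset.mem_filter.1 hi).2
          have hiZ : i ∉ Z := fun h => hff (by rw [← h8]; exact hZφ i h)
          exact Finset.mem_filter.2 ⟨Finset.mem_univ _, by rw [if_neg hiZ]; exact h8⟩
        exact_mod_cast this
    · rw [Finset.card_insert_of_notMem hr]
      push_cast
      have h6 : ∑ i ∈ Z, y (gr i) ^ 2 = n * y f ^ 2 := by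
        rw [Finset.sum_congr rfl fun i hi => by rw [hZgr i hi], Finset.sum_const, nsmul_eq_mul,
          hZn]
      have h7 : (Finset.univ.filter fun i => gr i ∉ R ∧ φ i = gr i) ⊆
          (Finset.univ.filter fun i => gr i ∉ R ∧ (if i ∈ Z then r else φ i) = gr i) ∪ Z := by
        intro i hi
        rw [Finset.mem_union]
        by_cases hiZ : i ∈ Z
        · exact Or.inr hiZ
        · left
          have h8 := (Finset.mem_filter.1 hi).2
          exact Finset.mem_filter.2 ⟨Finset.mem_univ _, h8.1, by rw [if_neg hiZ]; exact h8.2⟩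
      have h8 := Finset.sum_le_sum_of_subset_of_nonneg h7
        (f := fun i => y (gr i) ^ 2) fun i _ _ => sq_nonneg _
      have h9 := Finset.sum_union_inter (s₁ := Finset.univ.filter fun i => gr i ∉ R ∧
        (if i ∈ Z then r else φ i) = gr i) (s₂ := Z) (f := fun i => y (gr i) ^ 2)
      have h10 : 0 ≤ ∑ i ∈ (Finset.univ.filter fun i => gr i ∉ R ∧
        (if i ∈ Z then r else φ i) = gr i) ∩ Z, y (gr i) ^ 2 :=
        Finset.sum_nonneg fun i _ => sq_nonneg _
      linarith

/-- emptiness on all slopes for few distinct weights -/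
theorem U_few {ι : Type} [Fintype ι] {r : ℕ} (hr : 0 < r) (gr : ι → Fin r)
    (hsurj : Function.Surjective gr) (y : Fin r → ℝ) {M : ℝ} (hM : 0 < M) (hy : ∀ l, 0 < y l)
    (hyM : ∀ l, y l ≤ M) (hmass : (16 * (r : ℝ) + 8) * M ^ 2 ≤ ∑ i, y (gr i) ^ 2) :
    UU' (fun i => y (gr i)) (4 * M) := by
  classical
  have hM2 : 0 < M ^ 2 := by positivity
  obtain ⟨R, hR⟩ : ∃ R : Finset (Fin r), R = Finset.univ.filter fun l =>
      ((Finset.univ.filter fun i => gr i = l).card : ℝ) * y l ≤ 2 * M := ⟨_, rfl⟩
  have hRmem : ∀ l, l ∈ R ↔ ((Finset.univ.filter fun i => gr i = l).card : ℝ) * y l ≤ 2 * M := by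
    intro l; rw [hR]; simp
  have hF : ∀ f, f ∉ R → 2 * M < ((Finset.univ.filter fun i => gr i = f).card : ℝ) * y f := by
    intro f hf
    rw [hRmem] at hf
    exact not_le.1 hf
  have hcardR : ((Finset.univ \ R).card : ℝ) + R.card = r := by
    have h1 := Finset.card_sdiff_add_card_eq_card (Finset.subset_univ R)
    rw [Finset.card_univ, Fintype.card_fin] at h1
    exact_mod_cast h1
  have hrareR : ∑ i with gr i ∈ R, y (gr i) ^ 2 ≤ 2 * M ^ 2 * R.card := by
    rw [← Finset.sum_fiberwise_of_maps_to (g := gr) (t := R)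
      (fun i hi => (Finset.mem_filter.1 hi).2)]
    calc ∑ l ∈ R, ∑ i ∈ (Finset.univ.filter fun i => gr i ∈ R) with gr i = l, y (gr i) ^ 2
        ≤ ∑ l ∈ R, 2 * M ^ 2 := by
          refine Finset.sum_le_sum fun l hl => ?_
          have h1 := (hRmem l).1 hl
          calc ∑ i ∈ (Finset.univ.filter fun i => gr i ∈ R) with gr i = l, y (gr i) ^ 2
              = ∑ i ∈ (Finset.univ.filter fun i => gr i ∈ R) with gr i = l, y l ^ 2 :=
                Finset.sum_congr rfl fun i hi => by rw [(Finset.mem_filter.1 hi).2]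
            _ ≤ ((Finset.univ.filter fun i => gr i = l).card : ℝ) * y l ^ 2 := by
                rw [Finset.sum_const, nsmul_eq_mul]
                refine mul_le_mul_of_nonneg_right ?_ (sq_nonneg _)
                have : ((Finset.univ.filter fun i => gr i ∈ R).filter fun i => gr i = l).card ≤
                    (Finset.univ.filter fun i => gr i = l).card :=
                  Finset.card_le_card fun i hi => Finset.mem_filter.2
                    ⟨Finset.mem_univ _, (Finset.mem_filter.1 hi).2⟩
                exact_mod_cast this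
            _ = ((Finset.univ.filter fun i => gr i = l).card : ℝ) * y l * y l := by ring
            _ ≤ 2 * M * M := mul_le_mul h1 (hyM l) (hy l).le (by positivity)
            _ = 2 * M ^ 2 := by ring
      _ = 2 * M ^ 2 * R.card := by rw [Finset.sum_const, nsmul_eq_mul]; ring
  obtain ⟨S2, hS2⟩ : ∃ S2 : ℝ, S2 = ∑ i, y (gr i) ^ 2 := ⟨_, rfl⟩
  have hsplit : ∑ i with gr i ∈ R, y (gr i) ^ 2 + ∑ i with gr i ∉ R, y (gr i) ^ 2 = S2 := by
    rw [hS2]; exact Finset.sum_filter_add_sum_filter_not _ _ _
  have hA : 14 * M ^ 2 * ((Finset.univ \ R).card : ℝ) + 7 * M ^ 2 * (R.card : ℝ) ≤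
      ∑ i with gr i ∉ R, y (gr i) ^ 2 := by
    rw [← hS2] at hmass
    have h0 : (0 : ℝ) ≤ R.card := Nat.cast_nonneg _
    have h1 : (0 : ℝ) ≤ (Finset.univ \ R).card := Nat.cast_nonneg _
    rw [← hcardR] at hmass
    nlinarith
  obtain ⟨φ, h1, h2, h3, h4, -⟩ := assign gr y hM hy hyM R hF hA R le_rfl
  intro w s hs hw μ ν hμν
  rw [← hS2] at hmass
  have hμν' : μ + ν = S2 / (4 * M) ^ 2 := by rw [hμν, hS2]
  have hgoal : TS w (s * √S2) μ ν → TS w (s * √(∑ i, y (gr i) ^ 2)) μ ν := by
    rw [hS2]; exact id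
  apply hgoal
  have hS20 : 0 < S2 := by
    have : 0 < (16 * (r : ℝ) + 8) * M ^ 2 := by positivity
    linarith
  obtain ⟨κ', hκ⟩ : ∃ κ' : ℝ, κ' = S2 / (4 * (2 * M) ^ 2) := ⟨_, rfl⟩
  have hκ0 : 0 < κ' := by rw [hκ]; positivity
  have hμκ : μ + ν = κ' := by rw [hμν', hκ]; ring
  apply TS.toRT (by rw [hμκ]; exact hκ0)
  rw [hμκ]
  have hsqS : √S2 * √S2 = S2 := Real.mul_self_sqrt hS20.le
  have hsqκ : √κ' = √S2 / (4 * M) := by
    rw [hκ, show 4 * (2 * M) ^ 2 = (4 * M) ^ 2 by ring, Real.sqrt_div hS20.le,
      Real.sqrt_sq (by positivity)]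
  refine TS.of_weighted (e := s * (S2 / (4 * M))) hκ0 (by
    rw [hsqκ]
    have : s * √S2 * (√S2 / (4 * M)) = s * ((√S2 * √S2) / (4 * M)) := by ring
    rw [this, hsqS]) ?_
  obtain ⟨Sg, hSg⟩ : ∃ Sg : Fin r → ℝ, ∀ l, Sg l =
      ∑ i : {i // φ i = l}, y (gr i.1) ^ 2 := ⟨_, fun _ => rfl⟩
  have hne : ∀ l, ∃ i, φ i = l := by
    intro l
    by_cases hl : l ∈ R
    · obtain ⟨i, hi⟩ := hsurj l
      exact ⟨i, by rw [h1 i (by rw [hi]; exact hl), hi]⟩
    · have h5 := h4 l hl
      by_contra h
      push Not at h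
      have h6 : (Finset.univ.filter fun i => φ i = l) = ∅ := by
        rw [Finset.filter_eq_empty_iff]
        exact fun i _ => h i
      rw [h6, Finset.card_empty, Nat.cast_zero, zero_mul] at h5
      linarith
  have hSg0 : ∀ l, 0 < Sg l := fun l => by
    rw [hSg]
    obtain ⟨i, hi⟩ := hne l
    exact Finset.sum_pos (fun i _ => by have := hy (gr i.1); positivity)
      ⟨⟨i, hi⟩, Finset.mem_univ _⟩
  have hSgsum : ∑ l, Sg l = S2 := by
    rw [hS2, ← Finset.sum_fiberwise Finset.univ φ]
    refine Finset.sum_congr rfl fun l _ => ?_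
    rw [hSg]
    exact (Finset.sum_subtype (Finset.univ.filter fun i => φ i = l) (fun i => by simp)
      (fun i => y (gr i) ^ 2)).symm
  have hκg : 2 * (r : ℝ) + 1 ≤ 2 * κ' := by
    rw [hκ]
    have h5 : (r : ℝ) + 1 / 2 ≤ S2 / (4 * (2 * M) ^ 2) := by
      rw [le_div_iff₀ (by positivity)]
      nlinarith
    linarith
  have htube : ∀ l, ∃ a b : ℝ, 0 < a ∧ 0 < b ∧ a + b = 1 ∧
      ∀ α : ℝ, Emp (fun i : {i // φ i = l} => w i.1)
        (Reg α (α + Sg l / (2 * M) ^ 2 * (s * (2 * M))) (Sg l / (2 * M) ^ 2 * a)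
          (Sg l / (2 * M) ^ 2 * b)) := by
    intro l
    by_cases hl : l ∈ R
    · obtain ⟨f, hfR, h5, h6⟩ := h3 l hl
      have hPQ : ∀ i : {i // φ i = l}, ¬ gr i.1 = l → gr i.1 = f := fun i hi => by
        rcases h5 i.1 i.2 with h | h
        · exact absurd h hi
        · exact h
      have hcQ : Fintype.card {i : {i // φ i = l} // ¬ gr i.1 = l} =
          (Finset.univ.filter fun i => φ i = l ∧ gr i = f).card := by
        rw [← Fintype.card_subtype]
        refine Fintype.card_congr (Equiv.ofBijective (fun i => ⟨i.1.1, i.1.2, hPQ i.1 i.2⟩)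
          ⟨?_, ?_⟩)
        · intro i j h
          simp only [Subtype.mk.injEq] at h
          exact Subtype.ext (Subtype.ext h)
        · rintro ⟨i, hi1, hi2⟩
          exact ⟨⟨⟨i, hi1⟩, by simp only; rw [hi2]; exact fun h => hfR (h ▸ hl)⟩, rfl⟩
      have hcP : Fintype.card {i : {i // φ i = l} // gr i.1 = l} =
          (Finset.univ.filter fun i => gr i = l).card := by
        rw [← Fintype.card_subtype]
        refine Fintype.card_congr (Equiv.ofBijective (fun i => ⟨i.1.1, i.2⟩) ⟨?_, ?_⟩)
        · intro i j h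
          simp only [Subtype.mk.injEq] at h
          exact Subtype.ext (Subtype.ext h)
        · rintro ⟨i, hi⟩
          exact ⟨⟨⟨i, by rw [h1 i (by rw [hi]; exact hl), hi]⟩, hi⟩, rfl⟩
      have hPk := (hRmem l).1 hl
      rw [← hcP] at hPk
      rw [← hcQ] at h6
      refine tube_corner (x := fun i : {i // φ i = l} => y (gr i.1)) (l := y l) (u := y f) hs
        (hy l) (by have := hyM l; linarith) (hy f) (by have := hyM f; linarith)
        (fun i => gr i.1 = l) (fun i hi => by rw [hi]) (fun i hi => by rw [hPQ i hi]) ?_ ?_ ?_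
        (fun i => hw i.1) (by rw [hSg])
      · obtain ⟨i, hi⟩ := hsurj l
        exact Fintype.card_pos_iff.2 ⟨⟨⟨i, by rw [h1 i (by rw [hi]; exact hl), hi]⟩, hi⟩⟩
      · nlinarith
      · have h7 : ((Fintype.card {i : {i // φ i = l} // ¬ gr i.1 = l} : ℝ)) * y f ^ 2 ≤
            ∑ i : {i // φ i = l}, y (gr i.1) ^ 2 := by
          have h8 := (Equiv.sumCompl (fun i : {i // φ i = l} => gr i.1 = l)).sum_comp
            (fun i => y (gr i.1) ^ 2)
          rw [Fintype.sum_sum_type] at h8
          rw [← h8]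
          have h9 : ∑ i : {i : {i // φ i = l} // ¬ gr i.1 = l},
              y (gr ((Equiv.sumCompl (fun i : {i // φ i = l} => gr i.1 = l)) (Sum.inr i)).1) ^ 2 =
              (Fintype.card {i : {i // φ i = l} // ¬ gr i.1 = l} : ℝ) * y f ^ 2 := by
            rw [Finset.sum_congr rfl fun i _ => by
              rw [Equiv.sumCompl_apply_inr, hPQ i.1 i.2], Finset.sum_const, Finset.card_univ,
              nsmul_eq_mul]
          rw [h9]
          exact le_add_of_nonneg_left (Finset.sum_nonneg fun i _ => sq_nonneg _)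
        have h10 : (Fintype.card {i : {i // φ i = l} // gr i.1 = l} : ℝ) * y l * (2 * M) ≤
            2 * M * (2 * M) := mul_le_mul_of_nonneg_right hPk (by positivity)
        nlinarith
    · have hall : ∀ i : {i // φ i = l}, gr i.1 = l := fun i => by
        rcases h2 i.1 with h | h
        · rw [← h]; exact i.2
        · rw [i.2] at h
          exact absurd h hl
      have hc : Fintype.card {i // φ i = l} = (Finset.univ.filter fun i => φ i = l).card :=
        Fintype.card_subtype _
      have h5 := h4 l hl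
      rw [← hc] at h5
      refine tube_block (t := y l) hs (hy l) (by positivity) (by have := hyM l; linarith) ?_
        (Or.inr h5) ?_ ?_
      · obtain ⟨i, hi⟩ := hne l
        exact Fintype.card_pos_iff.2 ⟨⟨i, hi⟩⟩
      · intro i
        have := hw i.1
        simp only at this
        rwa [hall i] at this
      · rw [hSg, Finset.sum_congr rfl fun i _ => by rw [hall i], Finset.sum_const,
          Finset.card_univ, nsmul_eq_mul]
  choose a b ha hb hab hE using htube
  refine Emp_groups hr φ (a := a) (b := b) (γ := fun l => Sg l / S2) hκg (by positivity) ha hb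
    hab (fun l => div_pos (hSg0 l) hS20) ?_ ?_
  · rw [← Finset.sum_div, hSgsum]; exact div_self hS20.ne'
  · intro l
    have h5 := hE l (-(2 * a l * (Sg l / S2) * (s * (S2 / (4 * M)))))
    have e1 : -(2 * a l * (Sg l / S2) * (s * (S2 / (4 * M)))) +
        Sg l / (2 * M) ^ 2 * (s * (2 * M)) =
        2 * b l * (Sg l / S2) * (s * (S2 / (4 * M))) := by
      have h6 : b l = 1 - a l := by have := hab l; linarith
      rw [h6]
      field_simp
      ring
    have e2 : 4 * κ' * (Sg l / S2) * a l = Sg l / (2 * M) ^ 2 * a l := by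
      rw [hκ]; field_simp
    have e3 : 4 * κ' * (Sg l / S2) * b l = Sg l / (2 * M) ^ 2 * b l := by
      rw [hκ]; field_simp
    rw [e1] at h5
    rw [e2, e3]
    exact h5

/-- the class of self-intersection zero with few distinct weights is nef -/
theorem nf_few {n r : ℕ} (hr : 0 < r) (gr : Fin n → Fin r) (hsurj : Function.Surjective gr)
    (y : Fin r → ℝ) {M c : ℝ} (hM : 0 < M) (hy : ∀ l, 0 < y l) (hyM : ∀ l, y l ≤ M)
    (hsq : ∑ i, y (gr i) ^ 2 = c ^ 2) (hmass : (16 * (r : ℝ) + 8) * M ^ 2 ≤ c ^ 2)
    (hc : 12 * M ≤ c) : Pool.Agent.H350R3.NB.Nf ℂ (fun i => y (gr i)) c := by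
  have hU := U_few hr gr hsurj y hM hy hyM (by rw [hsq]; exact hmass)
  obtain ⟨i0, -⟩ := hsurj ⟨0, hr⟩
  refine NF.nf_of_star (fun i => y (gr i)) (fun i => hy _) (by linarith) hsq fun w d hw => ?_
  exact star_rep' (W := 2 * M) (fun i => hy _) ⟨i0⟩ (by positivity) (by linarith) hsq
    (by rw [show 2 * (2 * M) = 4 * M by ring]; exact hU) w d hw

end Pool.Agent.TH146.MN
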