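import Pool.Agent.TH146.MN.Lead

/-! Expansion in powers of the equation of the curve with several nodes. -/

set_option autoImplicit false
set_option linter.unusedSectionVars false

namespace Pool.Agent.TH146.MN

open Pool.Agent.TH603.EL Pool.Agent.TH603.EL.Scal2 Pool.Agent.TH793.NG

section dec
variable {F : Type} [Field F] {κ : Type} [Fintype κ] [DecidableEq κ]

/-- the right side of the equation of the curve -/
noncomputable def rhsN (c : κ → F) : Polynomial (HK F) :=
  (1 + Polynomial.X) * ∏ j, ((Polynomial.X - Polynomial.C (HahnSeries.C (c j))) ^ 2 -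
    Polynomial.C (ft F))

/-- the equation -/
noncomputable def hhN (c : κ → F) : PXY F := Polynomial.X ^ 2 - Polynomial.C (rhsN c)

theorem rhsN_deg (c : κ → F) : (rhsN c).natDegree ≤ 2 * Fintype.card κ + 1 := by
  unfold rhsN
  refine (Polynomial.natDegree_mul_le).trans ?_
  have h1 : (1 + Polynomial.X : Polynomial (HK F)).natDegree = 1 := one_add_X_deg
  have h2 : (∏ j, ((Polynomial.X - Polynomial.C (HahnSeries.C (c j))) ^ 2 -
      Polynomial.C (ft F)) : Polynomial (HK F)).natDegree ≤ ∑ _j : κ, 2 := by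
    refine (Polynomial.natDegree_prod_le _ _).trans (Finset.sum_le_sum fun j _ => ?_)
    refine (Polynomial.natDegree_sub_le _ _).trans (max_le ?_ ?_)
    · refine (Polynomial.natDegree_pow_le).trans ?_
      rw [Polynomial.natDegree_X_sub_C]
    · rw [Polynomial.natDegree_C]; omega
  rw [Finset.sum_const, Finset.card_univ, smul_eq_mul] at h2
  omega

/-- expansions in powers of the equation -/
def GoodN (c : κ → F) (δ : ℕ) (e : ℤ) (p : PXY F) : Prop :=
  ∃ A B : PXY F, Wt δ e A ∧ Wt δ (e - δ) B ∧ p = A.comp (hhN c) + B.comp (hhN c) * Polynomial.X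

variable {c : κ → F}

theorem GoodN.zero {δ : ℕ} {e : ℤ} : GoodN c δ e (0 : PXY F) :=
  ⟨0, 0, Wt.zero, Wt.zero, by simp⟩

theorem GoodN.add {δ : ℕ} {e : ℤ} {p q : PXY F} (hp : GoodN c δ e p) (hq : GoodN c δ e q) :
    GoodN c δ e (p + q) := by
  obtain ⟨A, B, h1, h2, rfl⟩ := hp
  obtain ⟨A', B', h1', h2', rfl⟩ := hq
  refine ⟨A + A', B + B', h1.add h1', h2.add h2', ?_⟩
  rw [Polynomial.add_comp, Polynomial.add_comp]; ring

theorem GoodN.sum {δ : ℕ} {e : ℤ} {τ : Type*} (t : Finset τ) (f : τ → PXY F)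
    (h : ∀ k ∈ t, GoodN c δ e (f k)) : GoodN c δ e (∑ k ∈ t, f k) := by
  classical
  induction t using Finset.induction_on with
  | empty => simpa using GoodN.zero
  | insert k t hk ih =>
    rw [Finset.sum_insert hk]
    exact (h k (Finset.mem_insert_self _ _)).add (ih fun j hj => h j (Finset.mem_insert_of_mem hj))

theorem GoodN.mulh {δ : ℕ} {e : ℤ} {p : PXY F} (hp : GoodN c δ (e - 2 * δ) p) :
    GoodN c δ e (p * hhN c) := by
  obtain ⟨A, B, h1, h2, rfl⟩ := hp
  refine ⟨A * Polynomial.X, B * Polynomial.X, h1.mulX, ?_, ?_⟩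
  · apply Wt.mulX
    have : e - (δ : ℤ) - 2 * δ = e - 2 * δ - δ := by ring
    rw [this]; exact h2
  · rw [Polynomial.mul_comp, Polynomial.mul_comp, Polynomial.X_comp]; ring

theorem GoodN.mono_pow {δ : ℕ} (hδ : Fintype.card κ < δ) (k : ℕ) :
    ∀ (e : ℤ) (p : Polynomial (HK F)),
    (p = 0 ∨ (p.natDegree : ℤ) + δ * k ≤ e) → GoodN c δ e (Polynomial.C p * Polynomial.X ^ k) := by
  induction k using Nat.strong_induction_on with
  | _ k ih =>
    intro e p hp
    rcases k with _ | k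
    · refine ⟨Polynomial.C p, 0, Wt.C ?_, Wt.zero, ?_⟩
      · rcases hp with h | h
        · left; exact h
        · right; simpa using h
      · simp
    · rcases k with _ | k
      · refine ⟨0, Polynomial.C p, Wt.zero, Wt.C ?_, ?_⟩
        · rcases hp with h | h
          · left; exact h
          · right
            push_cast at h
            linarith
        · simp
      · have e1 : Polynomial.C p * Polynomial.X ^ (k + 1 + 1) =
            (Polynomial.C p * Polynomial.X ^ k) * hhN c +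
              Polynomial.C (p * rhsN c) * Polynomial.X ^ k := by
          unfold hhN
          rw [Polynomial.C_mul]
          ring
        rw [e1]
        refine (GoodN.mulh (ih k (by omega) _ p ?_)).add (ih k (by omega) _ _ ?_)
        · rcases hp with h | h
          · left; exact h
          · right
            push_cast at h ⊢
            linarith
        · rcases hp with h | h
          · left; rw [h, zero_mul]
          · right
            have h2 : ((p * rhsN c).natDegree : ℤ) ≤ p.natDegree + (2 * Fintype.card κ + 1) := by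
              have := (Polynomial.natDegree_mul_le (p := p) (q := rhsN c)).trans
                (Nat.add_le_add_left (rhsN_deg c) _)
              exact_mod_cast this
            push_cast at h ⊢
            have h3 : (Fintype.card κ : ℤ) + 1 ≤ δ := by exact_mod_cast hδ
            linarith

end dec

section val
variable {F : Type} [Field F]

theorem EV_comp' (x y : HR F) (h A : PXY F) (n : ℕ) (hn : A.natDegree < n) :
    EV x y (A.comp h) = ∑ j ∈ Finset.range n, evA x (A.coeff j) * EV x y h ^ j := by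
  unfold Polynomial.comp
  rw [Polynomial.hom_eval₂, Polynomial.eval₂_eq_sum_range' _ hn]
  refine Finset.sum_congr rfl fun j _ => ?_
  rw [RingHom.comp_apply, EV_C]

variable {κ : Type} [Fintype κ] [DecidableEq κ]

theorem EV_hhN [CharZero F] {ε c : κ → F} {l : κ} {a b s : ℝ} (ha : 0 < a) (hb : 0 < b)
    (hs : 0 < s) (hab : a + b = 1) (hε2 : ∀ l, ε l ^ 2 = 1 + c l) (hw : wk ε c l ≠ 0) :
    EV (xk c l a b s) (yk ε c l a b s) (hhN c) =
      -4 * ((1 + xk c l a b s) * Rk c l a b s) * tz F (1 + s) 0 1 := by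
  rw [← curve_k ha hb hs hab hε2 hw]
  unfold hhN rhsN
  rw [EV_sub, EV_pow, EV_X, EV_C]
  unfold evA
  have h2 : Polynomial.eval₂ incl (xk c l a b s) (∏ j, ((Polynomial.X -
      Polynomial.C (HahnSeries.C (c j))) ^ 2 - Polynomial.C (ft F)) : Polynomial (HK F)) =
      ∏ j, ((xk c l a b s - cst (c j)) ^ 2 - incl (ft F)) := by
    rw [Polynomial.eval₂_finsetProd]
    refine Finset.prod_congr rfl fun j _ => ?_
    simp only [Polynomial.eval₂_sub, Polynomial.eval₂_pow, Polynomial.eval₂_X,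
      Polynomial.eval₂_C]
    rfl
  rw [Polynomial.eval₂_mul, h2]
  simp only [Polynomial.eval₂_add, Polynomial.eval₂_one, Polynomial.eval₂_X]

/-- the unit in front of the power of `t` -/
theorem unit_coeff [CharZero F] {ε c : κ → F} {l : κ} {a b s : ℝ} (ha : 0 < a) (hb : 0 < b)
    (hs : 0 < s) (hab : a + b = 1) (hε2 : ∀ l, ε l ^ 2 = 1 + c l) (hw : wk ε c l ≠ 0) :
    ∃ v : F, v ≠ 0 ∧ Low (-4 * ((1 + xk c l a b s) * Rk c l a b s)) 0 ∧
      (-4 * ((1 + xk c l a b s) * Rk c l a b s)).coeff 0 = algebraMap F (Lau F) v := by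
  have h0 : 0 < min a b := lt_min ha hb
  have h4 : Near (min a b) (-4 : HR F) (-4) := by
    have := near_cst (F := F) (c := min a b) (-4 : F)
    have e : cst (-4 : F) = (-4 : HR F) := by
      rw [map_neg]
      congr 1
      exact map_ofNat cst 4
    rwa [e] at this
  have h := h4.mul h0.le (near_V (ε := ε) (c := c) (l := l) ha hb hs hab hε2)
  refine ⟨-4 * wk ε c l ^ 2, ?_, h.low h0.le, h.coeff h0⟩
  refine mul_ne_zero ?_ (pow_ne_zero 2 hw)
  norm_num

end val

section lead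
variable {F : Type} [Field F]

theorem smul_cf (v : F) (x : HR F) (n : ℝ) (i j : ℤ) (y : Lau F)
    (h : x.coeff n = y * algebraMap F (Lau F) v) : cf x n i j = v * y.coeff (i, j) := by
  unfold cf
  rw [h, mul_comm, ← Algebra.smul_def, AddMonoidAlgebra.coeff_smul, Finsupp.smul_apply,
    smul_eq_mul]

/-- the leading coefficient of a sum of rows -/
theorem tube_lead (N : ℕ) (J : Finset ℕ) (hJN : J ⊆ Finset.range N) (G : ℕ → HR F)
    (hGz : ∀ j ∈ Finset.range N, j ∉ J → G j = 0) (ν : ℕ → ℝ) (hnu1 : ∀ j ∈ J, Low (G j) (ν j))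
    (hnu2 : ∀ j ∈ J, ∃ i j', cf (G j) (ν j) i j' ≠ 0)
    (hnu3 : ∀ j ∈ J, ∀ i j', cf (G j) (ν j) i j' ≠ 0 → j' = 0) {u : HR F} {v : F} (hv : v ≠ 0)
    (hu : Low u 0) (hu0 : u.coeff 0 = algebraMap F (Lau F) v) (s : ℝ) (hJne : J.Nonempty) :
    ∃ M : ℝ, (∃ i j, cf (∑ j ∈ Finset.range N, tz F (j * (1 + s)) 0 j * (G j * u ^ j)) M i j ≠ 0) ∧
      (∀ j ∈ J, M ≤ ν j + j * (1 + s)) ∧
      ∀ i j', cf (∑ j ∈ Finset.range N, tz F (j * (1 + s)) 0 j * (G j * u ^ j)) M i j' ≠ 0 →
        ∃ j ∈ J, j' = j ∧ ν j + j * (1 + s) = M ∧ cf (G j) (ν j) i 0 ≠ 0 := by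
  classical
  obtain ⟨j0, hj0, hmin⟩ := Finset.exists_min_image J (fun j => ν j + j * (1 + s)) hJne
  obtain ⟨n0, hn0⟩ : ∃ n0, n0 = ν j0 + j0 * (1 + s) := ⟨_, rfl⟩
  have hU : ∀ j : ℕ, Low (u ^ j) 0 ∧ (u ^ j).coeff 0 = algebraMap F (Lau F) (v ^ j) := by
    intro j
    refine ⟨hu.pow_zero' j, ?_⟩
    have := hu.coeff_pow j
    rw [mul_zero, hu0] at this
    rw [this, map_pow]
  -- the terms
  have hterm : ∀ j ∈ Finset.range N, ∀ i j' : ℤ,
      cf (tz F (j * (1 + s)) 0 j * (G j * u ^ j)) n0 i j' ≠ 0 →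
      j ∈ J ∧ ν j + j * (1 + s) = n0 ∧ j' = j ∧ cf (G j) (ν j) i 0 ≠ 0 := by
    intro j hj i j' h
    rw [cf_tz_mul] at h
    have hjJ : j ∈ J := by
      by_contra hcon
      apply h
      rw [hGz j hj hcon, zero_mul, Pool.Agent.TH793.NG.cf_zero]
    obtain ⟨hU1, hU2⟩ := hU j
    have hlow := (hnu1 j hjJ).mul hU1
    rw [add_zero] at hlow
    have hle := hmin j hjJ
    have heq : ν j + j * (1 + s) = n0 := by
      apply le_antisymm
      · by_contra hlt
        apply h
        unfold cf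
        rw [hlow _ (by linarith)]
        simp
      · rw [hn0]; exact hle
    have h1 : n0 - j * (1 + s) = ν j := by linarith
    rw [h1] at h
    have h2 := (hnu1 j hjJ).coeff_mul hU1
    rw [add_zero, hU2] at h2
    rw [smul_cf _ _ _ _ _ _ h2] at h
    have h4 : cf (G j) (ν j) (i - 0) (j' - j) ≠ 0 := right_ne_zero_of_mul h
    have h5 := hnu3 j hjJ _ _ h4
    have h6 : j' = j := by omega
    refine ⟨hjJ, heq, h6, ?_⟩
    rw [h6, sub_self, sub_zero] at h4
    exact h4
  refine ⟨n0, ?_, fun j hj => by rw [hn0]; exact hmin j hj, ?_⟩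
  · obtain ⟨i0, j1, h1⟩ := hnu2 j0 hj0
    have h2 := hnu3 j0 hj0 _ _ h1
    rw [h2] at h1
    refine ⟨i0, j0, ?_⟩
    rw [cf_sum, Finset.sum_eq_single j0]
    · rw [cf_tz_mul]
      obtain ⟨hU1, hU2⟩ := hU j0
      have h3 : n0 - j0 * (1 + s) = ν j0 := by linarith
      rw [h3, sub_self, sub_zero]
      have h4 := (hnu1 j0 hj0).coeff_mul hU1
      rw [add_zero, hU2] at h4
      rw [smul_cf _ _ _ _ _ _ h4]
      exact mul_ne_zero (pow_ne_zero _ hv) h1
    · intro j hj hne
      by_contra hcon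
      have := (hterm j hj _ _ hcon).2.2.1
      apply hne
      exact_mod_cast this.symm
    · intro h
      exact absurd (hJN hj0) h
  · intro i j' h
    rw [cf_sum] at h
    obtain ⟨j, hj, hj'⟩ := Finset.exists_ne_zero_of_sum_ne_zero h
    obtain ⟨h1, h2, h3, h4⟩ := hterm j hj _ _ hj'
    exact ⟨j, h1, h3, h2, h4⟩

variable [CharZero F] {κ : Type} [Fintype κ] [DecidableEq κ]

/-- the leading coefficient of a nonzero polynomial of weight at most `e` on one of the tubes -/
theorem multi_lead [Nonempty κ] {ε c : κ → F} {a b s γ : κ → ℝ} (ha : ∀ l, 0 < a l)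
    (hb : ∀ l, 0 < b l) (hab : ∀ l, a l + b l = 1) (hε2 : ∀ l, ε l ^ 2 = 1 + c l)
    (hε : ∀ l, ε l ≠ 0) (hc : Function.Injective c) {δ e : ℕ} (hδ : Fintype.card κ < δ)
    (hγ : ∑ l, γ l = 1) {σ : ℝ} (hσ : ∀ l, 1 + s l = σ + 4 * δ * γ l * (a l * b l))
    (hse : ∀ l, 2 * (e : ℝ) < s l) {p : PXY F} (hp : p ≠ 0) (hg : GoodN c δ e p) :
    ∃ (l : κ) (n : ℝ), (∃ i j, cf (EV (xk c l (a l) (b l) (s l)) (yk ε c l (a l) (b l) (s l)) p)
        n i j ≠ 0) ∧
      ∀ i j, cf (EV (xk c l (a l) (b l) (s l)) (yk ε c l (a l) (b l) (s l)) p) n i j ≠ 0 →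
        0 ≤ j ∧ -(2 * a l * γ l * (e - 2 * δ * j)) ≤ (i : ℝ) ∧
          (i : ℝ) ≤ 2 * b l * γ l * (e - 2 * δ * j) := by
  classical
  obtain ⟨A, B, hA, hB, rfl⟩ := hg
  have hs : ∀ l, 0 < s l := fun l => by
    have := hse l
    have h0 : (0 : ℝ) ≤ e := Nat.cast_nonneg e
    linarith
  have hwk : ∀ l, wk ε c l ≠ 0 := wk_ne hε hc
  obtain ⟨N, hNA, hNB⟩ : ∃ N, A.natDegree < N ∧ B.natDegree < N :=
    ⟨max A.natDegree B.natDegree + 1, by omega, by omega⟩
  obtain ⟨G, hG⟩ : ∃ G : ℕ → κ → HR F, ∀ j l, G j l = GG ε c a b s (A.coeff j) (B.coeff j) l :=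
    ⟨_, fun _ _ => rfl⟩
  have hpow : ∀ (l : κ) (j : ℕ), tz F (1 + s l) 0 1 ^ j = tz F (j * (1 + s l)) 0 j := by
    intro l j
    induction j with
    | zero =>
      simp only [pow_zero, Nat.cast_zero, zero_mul]
      rfl
    | succ j ih =>
      rw [pow_succ, ih, tz_mul]
      congr 1 <;> (push_cast; ring)
  have hval : ∀ l, EV (xk c l (a l) (b l) (s l)) (yk ε c l (a l) (b l) (s l))
      (A.comp (hhN c) + B.comp (hhN c) * Polynomial.X) =
      ∑ j ∈ Finset.range N, tz F (j * (1 + s l)) 0 j * (G j l *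
        (-4 * ((1 + xk c l (a l) (b l) (s l)) * Rk c l (a l) (b l) (s l))) ^ j) := by
    intro l
    rw [map_add, map_mul, EV_X, EV_comp' _ _ _ A N hNA, EV_comp' _ _ _ B N hNB, Finset.sum_mul,
      ← Finset.sum_add_distrib]
    refine Finset.sum_congr rfl fun j _ => ?_
    rw [EV_hhN (ha l) (hb l) (hs l) (hab l) hε2 (hwk l), mul_pow, hpow, hG j l]
    unfold GG
    ring
  -- the indices with nonzero sections
  obtain ⟨J, hJ⟩ : ∃ J : Finset ℕ,
      J = (Finset.range N).filter fun j => A.coeff j ≠ 0 ∨ B.coeff j ≠ 0 := ⟨_, rfl⟩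
  have hJm : ∀ j ∈ J, 0 ≤ (e : ℤ) - 2 * δ * j := by
    intro j hj
    rw [hJ, Finset.mem_filter] at hj
    have hδ0 : (0 : ℤ) ≤ δ := Int.natCast_nonneg _
    rcases hj.2 with h | h
    · rcases hA j with h1 | h1
      · exact absurd h1 h
      · have : (0 : ℤ) ≤ ((A.coeff j).natDegree : ℤ) := Int.natCast_nonneg _
        linarith
    · rcases hB j with h1 | h1
      · exact absurd h1 h
      · have : (0 : ℤ) ≤ ((B.coeff j).natDegree : ℤ) := Int.natCast_nonneg _
        linarith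
  have hlead : ∀ j ∈ J, ∃ (c0 : ℝ) (i0 i1 : κ → ℕ) (n : κ → ℝ),
      ∑ l, ((i0 l : ℝ) + i1 l) ≤ 2 * (e - 2 * δ * j) ∧
      ∀ l, Low (G j l) (n l) ∧ (∃ i j', cf (G j l) (n l) i j' ≠ 0) ∧
        n l ≤ c0 + a l * i0 l ∧ n l ≤ c0 + b l * i1 l ∧
        ∀ i j', cf (G j l) (n l) i j' ≠ 0 →
          j' = 0 ∧ c0 + a l * i ≤ n l ∧ c0 - b l * i ≤ n l := by
    intro j hj
    have hm := hJm j hj
    obtain ⟨m, hm'⟩ := Int.eq_ofNat_of_zero_le hm
    have hmR : (m : ℝ) = e - 2 * δ * j := by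
      have := congrArg (Int.cast : ℤ → ℝ) hm'
      push_cast at this
      exact this.symm
    have hj0 : (0 : ℝ) ≤ 2 * δ * j := by positivity
    rw [hJ, Finset.mem_filter] at hj
    have h3 : (Fintype.card κ : ℤ) + 1 ≤ δ := by exact_mod_cast hδ
    obtain ⟨c0, i0, i1, n, h1, h2⟩ := row_lead (F := F) ha hb hs hab hε2 hε hc (m := m)
      (A.coeff j) (B.coeff j) hj.2 (by
        rcases hA j with h | h
        · rw [h]; simp
        · have : ((A.coeff j).natDegree : ℤ) ≤ m := by linarith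
          exact_mod_cast this) (by
        rcases hB j with h | h
        · left; exact h
        · right
          have : 2 * ((B.coeff j).natDegree : ℤ) + (2 * Fintype.card κ + 1) ≤ 2 * m := by linarith
          exact_mod_cast this) (fun l => by rw [hmR]; have := hse l; linarith)
    refine ⟨c0, i0, i1, n, ?_, fun l => ?_⟩
    · rw [← hmR]
      exact_mod_cast h1
    · rw [hG j l]
      exact h2 l
  choose! c0 i0 i1 nu hsum hrow using hlead
  have hJne : J.Nonempty := by
    by_contra hcon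
    rw [Finset.not_nonempty_iff_eq_empty] at hcon
    apply hp
    have hz : ∀ j, A.coeff j = 0 ∧ B.coeff j = 0 := by
      intro j
      by_cases hj : j < N
      · have : j ∉ J := by rw [hcon]; simp
        rw [hJ, Finset.mem_filter] at this
        push Not at this
        exact this (Finset.mem_range.2 hj)
      · exact ⟨Polynomial.coeff_eq_zero_of_natDegree_lt (by omega),
          Polynomial.coeff_eq_zero_of_natDegree_lt (by omega)⟩
    have hA0 : A = 0 := by ext1 j; simpa using (hz j).1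
    have hB0 : B = 0 := by ext1 j; simpa using (hz j).2
    rw [hA0, hB0]; simp
  have htube : ∀ l, ∃ M : ℝ, (∃ i j, cf (EV (xk c l (a l) (b l) (s l))
        (yk ε c l (a l) (b l) (s l)) (A.comp (hhN c) + B.comp (hhN c) * Polynomial.X))
        M i j ≠ 0) ∧ (∀ j ∈ J, M ≤ nu j l + j * (1 + s l)) ∧
      ∀ i j', cf (EV (xk c l (a l) (b l) (s l)) (yk ε c l (a l) (b l) (s l))
        (A.comp (hhN c) + B.comp (hhN c) * Polynomial.X)) M i j' ≠ 0 →
        ∃ j ∈ J, j' = j ∧ nu j l + j * (1 + s l) = M ∧ cf (G j l) (nu j l) i 0 ≠ 0 := by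
    intro l
    rw [hval l]
    obtain ⟨v, hv, hu1, hu2⟩ := unit_coeff (c := c) (l := l) (ha l) (hb l) (hs l) (hab l) hε2
      (hwk l)
    refine tube_lead N J (by rw [hJ]; exact Finset.filter_subset _ _) (fun j => G j l) ?_
      (fun j => nu j l) (fun j hj => (hrow j hj l).1) (fun j hj => (hrow j hj l).2.1)
      (fun j hj i j' h => ((hrow j hj l).2.2.2.2 i j' h).1) hv hu1 hu2 (s l) hJne
    intro j hj hjJ
    rw [hJ, Finset.mem_filter] at hjJ
    push Not at hjJ
    obtain ⟨hA0, hB0⟩ := hjJ hj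
    rw [hG j l, hA0, hB0]
    simp [GG, evA]
  choose M hM1 hM2 hM3 using htube
  obtain ⟨k, -, hk⟩ := Finset.exists_min_image (Finset.univ : Finset κ)
    (fun l => M l - 2 * e * γ l * (a l * b l)) Finset.univ_nonempty
  refine ⟨k, M k, hM1 k, fun i j' h => ?_⟩
  obtain ⟨j, hj, hjj, hMj, hcf⟩ := hM3 k i j' h
  obtain ⟨_, g2, g3⟩ := (hrow j hj k).2.2.2.2 i 0 hcf
  have hsel := select (γ := γ) ha hb hab hγ (m := e - 2 * δ * j) (c0 := c0 j) (i0 := i0 j)
    (i1 := i1 j) (n := nu j) (hsum j hj) (fun l => (hrow j hj l).2.2.1)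
    (fun l => (hrow j hj l).2.2.2.1) (k := k) (fun l => by
      have h1 := hM2 l j hj
      have h2 := hk l (Finset.mem_univ l)
      have h3 := hσ l
      have h4 := hσ k
      have h5 : nu j k = M k - j * (1 + s k) := by linarith
      have h6 : M l - j * (1 + s l) ≤ nu j l := by linarith
      rw [h3] at h6
      rw [h4] at h5
      rw [h5]
      nlinarith [h2, h6]) g2 g3
  rw [hjj]
  push_cast
  exact ⟨Int.natCast_nonneg _, hsel.1, hsel.2⟩

end lead

end Pool.Agent.TH146.MN
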