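import Pool.Agent.TH146.MN.Lev
import Pool.Agent.TH366.RC.Corner

/-! Few distinct weights, without conditions on how often they are attained. -/

set_option autoImplicit false
set_option linter.unusedSectionVars false

namespace Pool.Agent.TH146.MN

open Pool.Agent.TH176.Nag Pool.Agent.TH181.Nag

/-- all slopes for one block -/
theorem U_block {ι : Type} [Fintype ι] {u H : ℝ} (hu : 0 < u) (huH : 2 * u ≤ H)
    (hmass : 3 * H ^ 2 ≤ 2 * ((Fintype.card ι : ℝ) * u ^ 2)) : UU' (fun _ : ι => u) H := by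
  classical
  have hH : 0 < H := by linarith
  have hn : 0 < (Fintype.card ι : ℝ) := by
    by_contra h
    have h0 : (Fintype.card ι : ℝ) = 0 := le_antisymm (not_lt.1 h) (Nat.cast_nonneg _)
    rw [h0] at hmass
    have : 0 < H ^ 2 := by positivity
    linarith
  have hne : Nonempty ι := Fintype.card_pos_iff.1 (by exact_mod_cast hn)
  have hcardall : (Fintype.card {i : ι // (fun _ : ι => (0 : Fin 1)) i = 0} : ℝ) =
      Fintype.card ι := by
    congr 1
    exact Fintype.card_congr (Equiv.subtypeUnivEquiv fun i => rfl)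
  have hL : Lev (fun _ : ι => (0 : Fin 1)) (fun _ => u) (fun _ => H / 2) := by
    refine ⟨fun l => ⟨hne.some, Subsingleton.elim _ _⟩, fun _ => hu, fun _ => by linarith,
      fun _ _ h => absurd h (lt_irrefl _), fun _ _ h => absurd h (lt_irrefl _), fun l => ?_,
      fun l => ?_⟩
    · right
      have hl : l = 0 := Subsingleton.elim _ _
      subst hl
      rw [hcardall]
      by_contra h
      push Not at h
      nlinarith
    · have h1 : (Finset.univ.filter fun l' : Fin 1 => H / 2 = H / 2).card = 1 := by simp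
      have h2 : (Finset.univ.filter fun i : ι => H / 2 ≤ H / 2) = Finset.univ := by simp
      rw [h1, h2, Finset.sum_const, Finset.card_univ, nsmul_eq_mul]
      push_cast
      nlinarith
  have h1 := U_lev hL _ (H / 2) ⟨0, rfl⟩ le_rfl
  have e1 : 2 * (H / 2) = H := by ring
  rw [e1] at h1
  exact UU'.equiv (Equiv.subtypeUnivEquiv fun i => le_rfl) h1

/-- a tube with a rare weight and a block of small weights -/
theorem tube_corner {ι : Type} [Fintype ι] {x : ι → ℝ} {w : ι → ℕ} {s H l u : ℝ} (hs : 0 < s)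
    (hl : 0 < l) (hlH : l ≤ H) (hu : 0 < u) (huH : 2 * u ≤ H) (P : ι → Prop) [DecidablePred P]
    (hP : ∀ i, P i → x i = l) (hQ : ∀ i, ¬ P i → x i = u) (hk : 0 < Fintype.card {i // P i})
    (hmass : 3 * H ^ 2 ≤ 2 * ((Fintype.card {i // ¬ P i} : ℝ) * u ^ 2))
    (hkl : (Fintype.card {i // P i} : ℝ) * l * H < ∑ i, x i ^ 2)
    (hw : ∀ i, s * x i < w i) {K : ℝ} (hK : K = (∑ i, x i ^ 2) / H ^ 2) :
    ∃ a b : ℝ, 0 < a ∧ 0 < b ∧ a + b = 1 ∧
      ∀ α : ℝ, Emp w (Reg α (α + K * (s * H)) (K * a) (K * b)) := by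
  classical
  have hH : 0 < H := by linarith
  obtain ⟨k, hkdef⟩ : ∃ k : ℕ, k = Fintype.card {i // P i} := ⟨_, rfl⟩
  rw [← hkdef] at hk hkl
  have hk0 : (0 : ℝ) < k := by exact_mod_cast hk
  obtain ⟨Q, hQdef⟩ : ∃ Q : ℝ, Q = (Fintype.card {i // ¬ P i} : ℝ) * u ^ 2 := ⟨_, rfl⟩
  rw [← hQdef] at hmass
  have hQ0 : 0 < Q := by
    have : 0 < H ^ 2 := by positivity
    linarith
  obtain ⟨S, hS⟩ : ∃ S : ℝ, S = ∑ i, x i ^ 2 := ⟨_, rfl⟩
  have hSQ : S = k * l ^ 2 + Q := by
    rw [hS, ← (Equiv.sumCompl P).sum_comp (fun i => x i ^ 2), Fintype.sum_sum_type, hQdef, hkdef]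
    congr 1
    · rw [Finset.sum_congr rfl fun i _ => by rw [Equiv.sumCompl_apply_inl, hP _ i.2],
        Finset.sum_const, Finset.card_univ, nsmul_eq_mul]
    · rw [Finset.sum_congr rfl fun i _ => by rw [Equiv.sumCompl_apply_inr, hQ _ i.2],
        Finset.sum_const, Finset.card_univ, nsmul_eq_mul]
  rw [← hS] at hkl hK
  have hS0 : 0 < S := by rw [hSQ]; positivity
  have hK0 : 0 < K := by rw [hK]; positivity
  obtain ⟨μ, hμ⟩ : ∃ μ : ℝ, μ = k * l / H := ⟨_, rfl⟩
  have hμ0 : 0 < μ := by rw [hμ]; positivity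
  have hμk : μ ≤ k := by
    rw [hμ, div_le_iff₀ hH]
    exact mul_le_mul_of_nonneg_left hlH hk0.le
  have hμK : μ < K := by
    rw [hμ, hK, div_lt_div_iff₀ hH (by positivity)]
    nlinarith
  refine ⟨μ / K, (K - μ) / K, by positivity, div_pos (by linarith) hK0, ?_, fun α => ?_⟩
  · rw [← add_div]
    have : μ + (K - μ) = K := by ring
    rw [this]; exact div_self hK0.ne'
  have e1 : K * (μ / K) = μ := by field_simp
  have e2 : K * ((K - μ) / K) = K - μ := by field_simp
  rw [e1, e2]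
  -- the indices
  let ek : Fin k ≃ {i // P i} := (Fintype.equivFinOfCardEq hkdef.symm).symm
  have hsv : (k : ℝ) * (s * l) ≤ ∑ j, (w (ek j) : ℝ) := by
    have h1 : ∑ _j : Fin k, s * l ≤ ∑ j, (w (ek j) : ℝ) :=
      Finset.sum_le_sum fun j _ => by
        have := hw (ek j)
        rw [hP _ (ek j).2] at this
        exact this.le
    rwa [Finset.sum_const, Finset.card_univ, Fintype.card_fin, nsmul_eq_mul] at h1
  have hQU : UU' (fun _ : {i // ¬ P i} => u) H := U_block hu huH (by rw [← hQdef]; exact hmass)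
  have hsumQ : ∑ _i : {i // ¬ P i}, u ^ 2 = Q := by
    rw [Finset.sum_const, Finset.card_univ, nsmul_eq_mul, hQdef]
  have hKQ : μ + (K - μ) - μ ^ 2 / k = Q / H ^ 2 := by
    rw [hμ, hK, hSQ]
    field_simp
    ring
  have h1 := hQU (fun i => w i.1) s hs (fun i => by
    have := hw i.1
    rwa [hQ _ i.2] at this) 0 (Q / H ^ 2) (by simp only; rw [hsumQ, zero_add])
  simp only at h1
  rw [hsumQ] at h1
  have hsqS : √S * √S = S := Real.mul_self_sqrt hS0.le
  have hsqQ : √Q * √Q = Q := Real.mul_self_sqrt hQ0.le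
  have hsK : s * √S * √(μ + (K - μ)) = K * (s * H) := by
    have e3 : μ + (K - μ) = K := by ring
    rw [e3, hK, Real.sqrt_div hS0.le, Real.sqrt_sq hH.le]
    have e4 : s * √S * (√S / H) = s * ((√S * √S) / H) := by ring
    rw [e4, hsqS]
    field_simp
  have h2 := Pool.Agent.TH366.RC.T.cornerK (w := fun i : {i // ¬ P i} => w i.1) hk
    (fun j => w (ek j)) (E := s * √S) (E' := s * √Q) (μ := μ) (ν := K - μ) hμ0 hμk
    (by linarith) (by rw [hKQ]; positivity) (by
      rw [hsK, hKQ, Real.sqrt_div hQ0.le, Real.sqrt_sq hH.le]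
      have e4 : s * √Q * (√Q / H) = s * ((√Q * √Q) / H) := by ring
      rw [e4, hsqQ]
      have h3 : s * l ≤ (∑ j, (w (ek j) : ℝ)) / k := by
        rw [le_div_iff₀ hk0]; linarith
      have h4 : μ * (s * l) ≤ μ * ((∑ j, (w (ek j) : ℝ)) / k) :=
        mul_le_mul_of_nonneg_left h3 hμ0.le
      have e5 : K * (s * H) - μ * (s * l) = s * (Q / H) := by
        rw [hμ, hK, hSQ]
        field_simp
        ring
      linarith) (by rw [hKQ]; exact h1)
  have h3 := h2 α
  rw [hsK] at h3
  have h4 := Pool.Agent.TH366.RC.Emp_reindex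
    ((Equiv.sumCompl P).symm.trans (Equiv.sumCongr ek.symm (Equiv.refl _))) h3
  have h7 : (fun j => Sum.elim (fun j => w (ek j)) (fun i : {i // ¬ P i} => w i.1)
      (((Equiv.sumCompl P).symm.trans (Equiv.sumCongr ek.symm (Equiv.refl _))) j)) = w := by
    funext j
    by_cases hj : P j
    · have h8 := Equiv.sumCompl_symm_apply_of_pos (p := P) hj
      simp only [Equiv.trans_apply, h8, Equiv.sumCongr_apply, Sum.map_inl, Sum.elim_inl,
        Equiv.apply_symm_apply]
    · have h8 := Equiv.sumCompl_symm_apply_of_neg (p := P) hj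
      simp only [Equiv.trans_apply, h8, Equiv.sumCongr_apply, Sum.map_inr, Sum.elim_inr,
        Equiv.refl_apply]
  rw [h7] at h4
  exact h4

end Pool.Agent.TH146.MN
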