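import Pool.Agent.TH146.MN.Dec
import Pool.Agent.TH793.NG.Key

/-! The degeneration of the weighted planes to several triangles. -/

set_option autoImplicit false
set_option linter.unusedSectionVars false

namespace Pool.Agent.TH146.MN

open Pool.Agent.TH603.EL Pool.Agent.TH603.EL.Scal2 Pool.Agent.TH793.NG Pool.Agent.TH176.Nag

section pts
variable {F : Type} [Field F] [CharZero F] {κ : Type} [Fintype κ] [DecidableEq κ]

theorem pf_goodN {c : κ → F} {δ e : ℕ} (hδ : Fintype.card κ < δ) {f : (ℤ × ℤ) →₀ HK F}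
    (hf : ∀ m ∈ f.support, 0 ≤ m.1 ∧ 0 ≤ m.2 ∧ m.1 + δ * m.2 ≤ e) : GoodN c δ e (pf f) := by
  unfold pf
  apply GoodN.sum
  intro m hm
  obtain ⟨h1, h2, h3⟩ := hf m hm
  apply GoodN.mono_pow hδ
  right
  have h4 := Polynomial.natDegree_C_mul_X_pow_le (f m) m.1.toNat
  have h5 : (m.1.toNat : ℤ) = m.1 := Int.toNat_of_nonneg h1
  have h6 : (m.2.toNat : ℤ) = m.2 := Int.toNat_of_nonneg h2
  rw [h6]
  have h7 : ((Polynomial.C (f m) * Polynomial.X ^ m.1.toNat : Polynomial (HK F)).natDegree : ℤ) ≤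
      m.1 := by
    rw [← h5]; exact_mod_cast h4
  linarith

theorem evp_near {x y : F} (hx : x ≠ 0) (hy : y ≠ 0) {u : HR F} {v : F} {c : ℝ} (hc : 0 < c)
    (h : Near c u v) : (evp hx hy u).coeff 0 = v := by
  rw [evp_coeff, h.coeff hc, AlgHom.commutes]
  rfl

theorem evp_xk {x y : F} (hx : x ≠ 0) (hy : y ≠ 0) {c : κ → F} {l : κ} {a b s : ℝ} (ha : 0 < a)
    (hb : 0 < b) (hs : 0 < s) (hc : c l ≠ 0) : evp hx hy (xk c l a b s) ≠ 0 := by
  intro h
  have h1 := evp_near hx hy (lt_min ha hb) (near_xk (F := F) (c := c) (l := l) ha hb hs)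
  rw [h, HahnSeries.coeff_zero] at h1
  exact hc h1.symm

theorem evp_QP {x y : F} (hx : x ≠ 0) (hy : y ≠ 0) {a b s : ℝ} (hs : 0 < s)
    (hx1 : x ^ 2 ≠ 1) : evp hx hy (pQ F b s - pP F a) ≠ 0 := by
  rcases lt_trichotomy a b with h | h | h
  · intro h0
    have h1 : evp hx hy (pP F a - pQ F b s) = 0 := by
      rw [← neg_sub, map_neg, h0, neg_zero]
    refine Van1.ne_of_coeff hx hy (a := a) (i := 1) (j := 0) ?_ h1
    unfold pP pQ
    rw [HahnSeries.coeff_sub, HahnSeries.coeff_add, coeff_tz, Van1.tz_coeff b a _ _ h.ne,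
      Van1.tz_coeff (b + s) a _ _ (by linarith), add_zero, sub_zero]
  · subst h
    intro h0
    have h1 := evp_coeff hx hy (pQ F a s - pP F a) a
    rw [h0, HahnSeries.coeff_zero] at h1
    unfold pP pQ at h1
    rw [HahnSeries.coeff_sub, HahnSeries.coeff_add, coeff_tz, coeff_tz,
      Van1.tz_coeff (a + s) a _ _ (by linarith), add_zero, map_sub] at h1
    have h2 := evL_mon x y hx hy (-1, 0)
    have h3 := evL_mon x y hx hy (1, 0)
    have h2' : evL x y hx hy (AddMonoidAlgebra.single (-1, 0) 1) = x ^ (-1 : ℤ) * y ^ (0 : ℤ) := h2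
    have h3' : evL x y hx hy (AddMonoidAlgebra.single (1, 0) 1) = x ^ (1 : ℤ) * y ^ (0 : ℤ) := h3
    rw [h2', h3', zpow_zero, mul_one, mul_one, zpow_one, zpow_neg_one] at h1
    apply hx1
    have h4 : x⁻¹ = x := (sub_eq_zero.1 h1.symm)
    rw [sq]
    nth_rewrite 1 [← h4]
    exact inv_mul_cancel₀ hx
  · refine Van1.ne_of_coeff hx hy (a := b) (i := -1) (j := 0) ?_
    unfold pP pQ
    rw [HahnSeries.coeff_sub, HahnSeries.coeff_add, coeff_tz, Van1.tz_coeff a b _ _ h.ne,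
      Van1.tz_coeff (b + s) b _ _ (by linarith), add_zero, sub_zero]

theorem evp_yk {x y : F} (hx : x ≠ 0) (hy : y ≠ 0) {ε c : κ → F} {l : κ} {a b s : ℝ}
    (ha : 0 < a) (hb : 0 < b) (hs : 0 < s) (hab : a + b = 1) (hε2 : ∀ l, ε l ^ 2 = 1 + c l)
    (hw : wk ε c l ≠ 0) (hx1 : x ^ 2 ≠ 1) : evp hx hy (yk ε c l a b s) ≠ 0 := by
  unfold yk
  rw [map_mul, map_mul]
  refine mul_ne_zero (mul_ne_zero ?_ ?_) (evp_QP hx hy hs hx1)
  · intro h
    have h1 := evp_near hx hy (c := 1) one_pos (near_cst (F := F) (c := 1) (wk ε c l))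
    rw [h, HahnSeries.coeff_zero] at h1
    exact hw h1.symm
  · intro h
    have h1 := congrArg (evp hx hy) (rt_mul (ord_Uk (c := c) (l := l) ha hb hs hab hε2 hw))
    rw [map_mul, h, zero_mul, map_add, map_one] at h1
    have h2 := congrArg (fun u : HK F => u.coeff 0) h1
    simp only [HahnSeries.coeff_zero, HahnSeries.coeff_add, HahnSeries.coeff_one, if_true] at h2
    rw [evp_low hx hy (low_Uk ha hb hs hab hε2 hw) 0 (lt_min ha hb), add_zero] at h2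
    exact one_ne_zero h2.symm

end pts

section nodes
variable (F : Type) [Field F] [CharZero F] (g : ℕ)

/-- the values of the parameter at the nodes -/
def nε (l : Fin g) : F := (((l : ℕ) + 2 : ℕ) : F)

/-- the positions of the nodes -/
def nc (l : Fin g) : F := ((((l : ℕ) + 2) ^ 2 - 1 : ℕ) : F)

theorem nε_ne (l : Fin g) : nε F g l ≠ 0 := by
  unfold nε
  exact_mod_cast (by omega : (l : ℕ) + 2 ≠ 0)

theorem nε_sq (l : Fin g) : nε F g l ^ 2 = 1 + nc F g l := by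
  unfold nε nc
  have h : ((l : ℕ) + 2) ^ 2 = 1 + (((l : ℕ) + 2) ^ 2 - 1) := by
    have : 1 ≤ ((l : ℕ) + 2) ^ 2 := Nat.one_le_pow _ _ (by omega)
    omega
  exact_mod_cast h

theorem nc_ne (l : Fin g) : nc F g l ≠ 0 := by
  unfold nc
  have h : ((l : ℕ) + 2) ^ 2 - 1 ≠ 0 := by
    have : 2 ^ 2 ≤ ((l : ℕ) + 2) ^ 2 := Nat.pow_le_pow_left (by omega) 2
    omega
  exact_mod_cast h

theorem nc_inj : Function.Injective (nc F g) := by
  intro l l' h
  unfold nc at h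
  have h1 : ((l : ℕ) + 2) ^ 2 - 1 = ((l' : ℕ) + 2) ^ 2 - 1 := by exact_mod_cast h
  have h2 : 1 ≤ ((l : ℕ) + 2) ^ 2 := Nat.one_le_pow _ _ (by omega)
  have h3 : 1 ≤ ((l' : ℕ) + 2) ^ 2 := Nat.one_le_pow _ _ (by omega)
  have h4 : ((l : ℕ) + 2) ^ 2 = ((l' : ℕ) + 2) ^ 2 := by omega
  have h5 := Nat.pow_left_injective (n := 2) (by norm_num) h4
  exact Fin.ext (by omega)

end nodes

/-- emptiness on the triangles of all groups gives emptiness in the weighted plane -/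
theorem Emp_multi {F : Type} [Field F] [CharZero F] {g : ℕ} (hg : 0 < g) {ι : Type}
    {gr : ι → Fin g} {w : ι → ℕ} {δ e : ℕ} (hδ : g < δ) {a b γ : Fin g → ℝ}
    (ha : ∀ l, 0 < a l) (hb : ∀ l, 0 < b l) (hab : ∀ l, a l + b l = 1)
    (hγ0 : ∀ l, 0 ≤ γ l) (hγ : ∑ l, γ l = 1) {x y : ι → F} (hx : ∀ i, x i ≠ 0)
    (hy : ∀ i, y i ≠ 0) (hx1 : ∀ i, x i ^ 2 ≠ 1)
    (hE : ∀ l, ∀ f : (ℤ × ℤ) →₀ F, (↑f.support : Set (ℤ × ℤ)) ⊆
      Reg (-(2 * a l * γ l * e)) (2 * b l * γ l * e) (4 * δ * γ l * a l) (4 * δ * γ l * b l) →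
      (∀ i, gr i = l → LM f (x i) (y i) (w i)) → f = 0) :
    Emp w {m : ℤ × ℤ | 0 ≤ m.1 ∧ 0 ≤ m.2 ∧ m.1 + δ * m.2 ≤ (e : ℤ)} := by
  classical
  have : Nonempty (Fin g) := ⟨⟨0, hg⟩⟩
  have he : (0 : ℝ) ≤ e := Nat.cast_nonneg e
  obtain ⟨σ, hσ⟩ : ∃ σ : ℝ, σ = 2 * (e : ℝ) + 2 := ⟨_, rfl⟩
  obtain ⟨s, hs⟩ : ∃ s : Fin g → ℝ, ∀ l, s l = σ - 1 + 4 * δ * γ l * (a l * b l) :=
    ⟨_, fun _ => rfl⟩
  have hpos : ∀ l, 0 ≤ 4 * δ * γ l * (a l * b l) := fun l => by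
    have h1 := hγ0 l
    have h2 := (ha l).le
    have h3 := (hb l).le
    positivity
  have hse : ∀ l, 2 * (e : ℝ) < s l := fun l => by
    rw [hs l, hσ]; have := hpos l; linarith
  have hs0 : ∀ l, 0 < s l := fun l => by have := hse l; linarith
  have hchar : CharZero (HK F) :=
    charZero_of_injective_ringHom (f := (HahnSeries.C : F →+* HK F)) HahnSeries.C_injective
  have hε2 := nε_sq F g
  have hcard : Fintype.card (Fin g) < δ := by rwa [Fintype.card_fin]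
  have hwk : ∀ l, wk (nε F g) (nc F g) l ≠ 0 := wk_ne (nε_ne F g) (nc_inj F g)
  obtain ⟨T, hT⟩ : ∃ T : Fin g → ZMod 3 → HR F, ∀ l, T l = UU (xk (nc F g) l (a l) (b l) (s l))
      (yk (nε F g) (nc F g) l (a l) (b l) (s l)) := ⟨_, fun _ => rfl⟩
  have hU : ∀ i l, evp (hx i) (hy i) (T (gr i) l) ≠ 0 := by
    intro i l
    rw [hT]
    unfold UU
    split_ifs
    · rw [map_one]; exact one_ne_zero
    · exact evp_xk (hx i) (hy i) (ha _) (hb _) (hs0 _) (nc_ne F g _)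
    · exact evp_yk (hx i) (hy i) (ha _) (hb _) (hs0 _) (hab _) hε2 (hwk _) (hx1 i)
  refine ⟨HK F, inferInstance, hchar,
    fun i => evp (hx i) (hy i) (T (gr i) 1) / evp (hx i) (hy i) (T (gr i) 0),
    fun i => evp (hx i) (hy i) (T (gr i) 2) / evp (hx i) (hy i) (T (gr i) 0),
    fun i => div_ne_zero (hU i 1) (hU i 0), fun i => div_ne_zero (hU i 2) (hU i 0), ?_⟩
  intro f hf hLM
  by_contra hne0
  have hf0 : ∀ m ∈ f.support, 0 ≤ m.1 ∧ 0 ≤ m.2 ∧ m.1 + δ * m.2 ≤ (e : ℤ) := fun m hm => hf hm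
  have hf1 : ∀ m ∈ f.support, 0 ≤ m.1 ∧ 0 ≤ m.2 ∧ m.1 + m.2 ≤ (e : ℤ) := by
    intro m hm
    obtain ⟨h1, h2, h3⟩ := hf0 m hm
    refine ⟨h1, h2, ?_⟩
    have h4 : (1 : ℤ) ≤ δ := by exact_mod_cast (by omega : 1 ≤ δ)
    nlinarith
  obtain ⟨l, n, ⟨i0, j0, ha0⟩, hb0⟩ := multi_lead (F := F) ha hb hab hε2 (nε_ne F g) (nc_inj F g)
    hcard hγ (σ := σ) (s := s) (fun l => by rw [hs l]; ring) hse
    (pf_ne (fun m hm => ⟨(hf0 m hm).1, (hf0 m hm).2.1⟩) hne0) (pf_goodN hcard hf0)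
  rw [← ev_hom _ _ e f] at ha0
  have h2 : ((ev (T l) (hom e f)).coeff n).coeff = 0 := by
    apply hE l
    · intro m hm
      have hm' : cf (EV (xk (nc F g) l (a l) (b l) (s l))
          (yk (nε F g) (nc F g) l (a l) (b l) (s l)) (pf f)) n m.1 m.2 ≠ 0 := by
        rw [← ev_hom _ _ e f, ← hT]
        exact Finsupp.mem_support_iff.1 hm
      obtain ⟨h3, h4, h5⟩ := hb0 m.1 m.2 hm'
      refine ⟨h3, ?_, ?_⟩
      · linarith
      · linarith
    · intro i hi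
      have := LM_transfer (hx i) (hy i) (hU i) hf1 (hLM i) n
      rwa [hi] at this
  apply ha0
  unfold cf
  rw [← hT, h2]
  rfl

end Pool.Agent.TH146.MN
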