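import Pool.Agent.TH146.MN.Rep

/-! Classes with weights on several levels. -/

set_option autoImplicit false
set_option linter.unusedSectionVars false

namespace Pool.Agent.TH146.MN

open Pool.Agent.TH176.Nag Pool.Agent.TH181.Nag

theorem UU'.equiv {ι ι' : Type} [Fintype ι] [Fintype ι'] (e : ι' ≃ ι) {x : ι → ℝ} {H : ℝ}
    (h : UU' (fun j => x (e j)) H) : UU' x H := by
  intro w s hs hw μ ν hμν α
  have e1 : ∑ j, x (e j) ^ 2 = ∑ i, x i ^ 2 := e.sum_comp (fun i => x i ^ 2)
  have h1 := h (fun j => w (e j)) s hs (fun j => hw (e j)) μ ν (by rw [hμν, e1]) α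
  rw [e1] at h1
  have h2 := Pool.Agent.TH366.RC.Emp_reindex e.symm h1
  simpa using h2

/-- Groups of points with weights `y`, on levels given by an upper bound `top l` of the weights of the
level of the group `l`. -/
structure Lev {ι κ : Type} [Fintype ι] [Fintype κ] [DecidableEq κ] (gr : ι → κ) (y top : κ → ℝ) :
    Prop where
  surj : Function.Surjective gr
  pos : ∀ l, 0 < y l
  le : ∀ l, y l ≤ top l
  att : ∀ l l', top l' < top l → ∃ l'', y l'' = top l ∧ top l'' = top l
  ratio : ∀ l l', top l' < top l → 2 * top l' ≤ top l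
  big : ∀ l, y l = top l ∨ top l < (Fintype.card {i // gr i = l} : ℝ) * y l
  mass : ∀ l, (4 * ((Finset.univ.filter fun l' => top l' = top l).card : ℝ) + 2) * top l ^ 2 ≤
    ∑ i with top (gr i) ≤ top l, y (gr i) ^ 2

/-- emptiness on all slopes for weights on several levels -/
theorem U_lev {ι κ : Type} [Fintype ι] [Fintype κ] [DecidableEq κ] {gr : ι → κ} {y top : κ → ℝ}
    (hL : Lev gr y top) (k : ℕ) : ∀ T : ℝ, (∃ l, top l = T) →
      ((Finset.univ.image top).filter (· < T)).card ≤ k →
      UU' (fun i : {i // top (gr i) ≤ T} => y (gr i.1)) (2 * T) := by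
  classical
  induction k using Nat.strong_induction_on with
  | _ k ih =>
    rintro T ⟨l1, hl1⟩ hk w s hs hw μ ν hμν
    obtain ⟨l0, hl0t, hl0y⟩ : ∃ l0, top l0 = T ∧ ((∃ l', top l' < T) → y l0 = T) := by
      by_cases h : ∃ l', top l' < T
      · obtain ⟨l', hl'⟩ := h
        obtain ⟨l0, h1, h2⟩ := hL.att l1 l' (by rw [hl1]; exact hl')
        rw [hl1] at h1 h2
        exact ⟨l0, h2, fun _ => h1⟩
      · exact ⟨l1, hl1, fun h' => absurd h' h⟩
    have hT : 0 < T := by
      rw [← hl0t]; exact (hL.pos l0).trans_le (hL.le l0)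
    obtain ⟨S2, hS2⟩ : ∃ S2 : ℝ, S2 = ∑ i : {i // top (gr i) ≤ T}, y (gr i.1) ^ 2 := ⟨_, rfl⟩
    obtain ⟨i0, hi0⟩ := hL.surj l0
    have hS20 : 0 < S2 := by
      rw [hS2]
      exact Finset.sum_pos (fun i _ => by have := hL.pos (gr i.1); positivity)
        ⟨⟨i0, by rw [hi0, hl0t]⟩, Finset.mem_univ _⟩
    rw [← hS2] at hμν ⊢
    obtain ⟨κ', hκ⟩ : ∃ κ' : ℝ, κ' = S2 / (4 * T ^ 2) := ⟨_, rfl⟩
    have hκ0 : 0 < κ' := by rw [hκ]; positivity
    have hμκ : μ + ν = κ' := by rw [hμν, hκ]; ring
    apply TS.toRT (by rw [hμκ]; exact hκ0)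
    rw [hμκ]
    have hsqS : √S2 * √S2 = S2 := Real.mul_self_sqrt hS20.le
    have hsqκ : √κ' = √S2 / (2 * T) := by
      rw [hκ, show 4 * T ^ 2 = (2 * T) ^ 2 by ring, Real.sqrt_div hS20.le,
        Real.sqrt_sq (by positivity)]
    refine TS.of_weighted (e := s * (S2 / (2 * T))) hκ0 (by
      rw [hsqκ]
      have : s * √S2 * (√S2 / (2 * T)) = s * ((√S2 * √S2) / (2 * T)) := by ring
      rw [this, hsqS]) ?_
    -- the groups of this level
    obtain ⟨V, hV⟩ : ∃ V : Finset κ, V = Finset.univ.filter fun l' => top l' = T := ⟨_, rfl⟩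
    have hVmem : ∀ l, l ∈ V ↔ top l = T := by
      intro l; rw [hV]; simp
    have hVl0 : l0 ∈ V := (hVmem _).2 hl0t
    have hval : ∀ i : {i // top (gr i) ≤ T}, (if top (gr i.1) = T then gr i.1 else l0) ∈ V := by
      intro i
      split_ifs with h
      · exact (hVmem _).2 h
      · exact hVl0
    obtain ⟨e⟩ : Nonempty (V ≃ Fin V.card) := ⟨V.equivFin⟩
    obtain ⟨g1, hg1⟩ : ∃ g1 : {i // top (gr i) ≤ T} → Fin V.card, ∀ i l, g1 i = l ↔
        (if top (gr i.1) = T then gr i.1 else l0) = (e.symm l : κ) := by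
      refine ⟨fun i => e ⟨_, hval i⟩, fun i l => ?_⟩
      rw [← e.eq_symm_apply, Subtype.ext_iff]
    have hg : 0 < V.card := Finset.card_pos.2 ⟨l0, hVl0⟩
    have htopV : ∀ l, top (e.symm l : κ) = T := fun l => (hVmem _).1 (e.symm l).2
    have hg1' : ∀ (i : {i // top (gr i) ≤ T}) l, gr i.1 = (e.symm l : κ) → g1 i = l :=
      fun i l h => by
        rw [hg1, if_pos (by rw [h]; exact htopV l)]; exact h
    have hcard : ∀ l, Fintype.card {i // gr i = (e.symm l : κ)} ≤
        Fintype.card {i : {i // top (gr i) ≤ T} // g1 i = l} := by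
      intro l
      refine Fintype.card_le_of_injective
        (fun j : {i // gr i = (e.symm l : κ)} => (⟨⟨j.1, by rw [j.2]; exact (htopV l).le⟩,
          hg1' _ _ j.2⟩ : {i : {i // top (gr i) ≤ T} // g1 i = l})) ?_
      intro j j' h
      simp only [Subtype.mk.injEq] at h
      exact Subtype.ext h
    have hcard0 : ∀ l, 0 < Fintype.card {i // gr i = (e.symm l : κ)} := fun l => by
      obtain ⟨i, hi⟩ := hL.surj (e.symm l : κ)
      exact Fintype.card_pos_iff.2 ⟨⟨i, hi⟩⟩
    -- group sums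
    obtain ⟨Sg, hSg⟩ : ∃ Sg : Fin V.card → ℝ, ∀ l, Sg l =
        ∑ i : {i : {i // top (gr i) ≤ T} // g1 i = l}, y (gr i.1.1) ^ 2 := ⟨_, fun _ => rfl⟩
    have hSg0 : ∀ l, 0 < Sg l := fun l => by
      rw [hSg]
      refine Finset.sum_pos (fun i _ => by have := hL.pos (gr i.1.1); positivity) ?_
      have h1 := (hcard0 l).trans_le (hcard l)
      obtain ⟨i⟩ := Fintype.card_pos_iff.1 h1
      exact ⟨i, Finset.mem_univ _⟩
    have hSgsum : ∑ l, Sg l = S2 := by
      rw [hS2, ← Finset.sum_fiberwise Finset.univ g1]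
      refine Finset.sum_congr rfl fun l _ => ?_
      rw [hSg]
      exact (Finset.sum_subtype (Finset.univ.filter fun i => g1 i = l) (fun i => by simp)
        (fun i => y (gr i.1) ^ 2)).symm
    have hκg : 2 * (V.card : ℝ) + 1 ≤ 2 * κ' := by
      have h1 := hL.mass l1
      rw [hl1, ← hV] at h1
      have h2 : ∑ i with top (gr i) ≤ T, y (gr i) ^ 2 = S2 := by
        rw [hS2]
        exact Finset.sum_subtype (Finset.univ.filter fun i => top (gr i) ≤ T)
          (fun i => by simp) (fun i => y (gr i) ^ 2)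
      rw [h2] at h1
      have h4 : (V.card : ℝ) + 1 / 2 ≤ κ' := by
        rw [hκ, le_div_iff₀ (by positivity)]
        linarith
      linarith
    -- the tubes
    have htube : ∀ l, ∃ a b : ℝ, 0 < a ∧ 0 < b ∧ a + b = 1 ∧
        ∀ α : ℝ, Emp (fun i : {i : {i // top (gr i) ≤ T} // g1 i = l} => w i.1)
          (Reg α (α + Sg l / T ^ 2 * (s * T)) (Sg l / T ^ 2 * a) (Sg l / T ^ 2 * b)) := by
      intro l
      by_cases hall : ∀ i : {i : {i // top (gr i) ≤ T} // g1 i = l}, gr i.1.1 = (e.symm l : κ)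
      · refine tube_block (t := y (e.symm l : κ)) hs (hL.pos _) hT
          ((hL.le _).trans (htopV l).le) ((hcard0 l).trans_le (hcard l)) ?_ ?_ ?_
        · have h1 := hL.big (e.symm l : κ)
          rw [htopV l] at h1
          rcases h1 with h1 | h1
          · exact Or.inl h1
          · right
            refine lt_of_lt_of_le h1 (mul_le_mul_of_nonneg_right ?_ (hL.pos _).le)
            exact_mod_cast hcard l
        · intro i
          have := hw i.1
          simp only at this
          rwa [hall i] at this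
        · rw [hSg, Finset.sum_congr rfl fun i _ => by rw [hall i], Finset.sum_const,
            Finset.card_univ, nsmul_eq_mul]
      · push Not at hall
        obtain ⟨i1, hi1⟩ := hall
        have hi1' := (hg1 i1.1 l).1 i1.2
        have hlt : top (gr i1.1.1) ≠ T := by
          intro h
          rw [if_pos h] at hi1'
          exact hi1 hi1'
        rw [if_neg hlt] at hi1'
        have hlt' : top (gr i1.1.1) < T := lt_of_le_of_ne i1.1.2 hlt
        have hne2 : ((Finset.univ.image top).filter (· < T)).Nonempty :=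
          ⟨top (gr i1.1.1), Finset.mem_filter.2 ⟨Finset.mem_image_of_mem _ (Finset.mem_univ _),
            hlt'⟩⟩
        obtain ⟨T2, hT2m, hT2⟩ := Finset.exists_max_image _ id hne2
        simp only [id] at hT2
        obtain ⟨hT2a, hT2b⟩ := Finset.mem_filter.1 hT2m
        obtain ⟨l2, -, hl2⟩ := Finset.mem_image.1 hT2a
        have hle : ∀ l', top l' < T → top l' ≤ T2 := fun l' h =>
          hT2 _ (Finset.mem_filter.2 ⟨Finset.mem_image_of_mem _ (Finset.mem_univ _), h⟩)
        have h2T : 2 * T2 ≤ T := by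
          have := hL.ratio l1 l2 (by rw [hl1, hl2]; exact hT2b)
          rwa [hl1, hl2] at this
        have hT20 : 0 < T2 := by
          rw [← hl2]; exact (hL.pos l2).trans_le (hL.le l2)
        have hcardlt : ((Finset.univ.image top).filter (· < T2)).card <
            ((Finset.univ.image top).filter (· < T)).card := by
          apply Finset.card_lt_card
          rw [Finset.ssubset_iff_of_subset]
          · exact ⟨T2, hT2m, fun h => lt_irrefl _ (Finset.mem_filter.1 h).2⟩
          · intro t ht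
            rw [Finset.mem_filter] at ht ⊢
            exact ⟨ht.1, ht.2.trans hT2b⟩
        refine tube_top (x := fun i : {i : {i // top (gr i) ≤ T} // g1 i = l} => y (gr i.1.1))
          (W2 := T2) hs hT hT20 h2T (fun i => hL.pos _) ⟨i1, ?_⟩ ?_ ?_ (fun i => hw i.1)
          (by rw [hSg])
        · intro h
          have h1 := hL.le (gr i1.1.1)
          have h' : y (gr i1.1.1) = T := h
          linarith
        · rw [Fintype.card_pos_iff]
          refine ⟨⟨⟨⟨i0, by rw [hi0, hl0t]⟩, ?_⟩, ?_⟩⟩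
          · rw [hg1, if_pos (by simp only [hi0]; exact hl0t)]
            simp only [hi0]
            exact hi1'
          · simp only [hi0]
            exact hl0y ⟨_, hlt'⟩
        · have hlow : ∀ j : {i // top (gr i) ≤ T2}, top (gr j.1) < T := fun j => by
            have := j.2
            linarith
          have hj1 : ∀ j : {i // top (gr i) ≤ T2}, g1 ⟨j.1, (hlow j).le⟩ = l := fun j => by
            rw [hg1, if_neg (hlow j).ne]
            exact hi1'
          have hj2 : ∀ j : {i // top (gr i) ≤ T2}, ¬ y (gr j.1) = T := fun j h => by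
            have h1 := hL.le (gr j.1)
            have h2 := hlow j
            linarith
          obtain ⟨eq, heq⟩ : ∃ eq : {i // top (gr i) ≤ T2} ≃
              {i : {i : {i // top (gr i) ≤ T} // g1 i = l} // ¬ y (gr i.1.1) = T},
              ∀ j, (eq j).1.1.1 = j.1 := by
            refine ⟨Equiv.ofBijective (fun j => ⟨⟨⟨j.1, (hlow j).le⟩, hj1 j⟩, hj2 j⟩) ⟨?_, ?_⟩,
              fun j => rfl⟩
            · intro j j' h
              simp only [Subtype.mk.injEq] at h
              exact Subtype.ext h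
            · rintro ⟨⟨⟨i, hi⟩, hi2⟩, hi3⟩
              refine ⟨⟨i, hle _ (lt_of_le_of_ne hi fun h => hi3 ?_)⟩, rfl⟩
              rw [hg1, if_pos h] at hi2
              simp only at hi2 ⊢
              rw [hi2, ← hi1']
              exact hl0y ⟨_, hlt'⟩
          have h5 := ih _ (hcardlt.trans_le hk) T2 ⟨l2, hl2⟩ le_rfl
          refine UU'.equiv eq ?_
          have e6 : (fun j : {i // top (gr i) ≤ T2} =>
              (fun i : {i : {i : {i // top (gr i) ≤ T} // g1 i = l} // ¬ y (gr i.1.1) = T} =>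
                (fun i : {i : {i // top (gr i) ≤ T} // g1 i = l} => y (gr i.1.1)) i.1) (eq j)) =
              fun j : {i // top (gr i) ≤ T2} => y (gr j.1) := by
            funext j
            simp only [heq]
          rw [e6]
          exact h5
    choose a b ha hb hab hE using htube
    refine Emp_groups hg g1 (a := a) (b := b) (γ := fun l => Sg l / S2) hκg (by positivity) ha hb
      hab (fun l => div_pos (hSg0 l) hS20) ?_ ?_
    · rw [← Finset.sum_div, hSgsum]; exact div_self hS20.ne'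
    · intro l
      have h1 := hE l (-(2 * a l * (Sg l / S2) * (s * (S2 / (2 * T)))))
      have e1 : -(2 * a l * (Sg l / S2) * (s * (S2 / (2 * T)))) + Sg l / T ^ 2 * (s * T) =
          2 * b l * (Sg l / S2) * (s * (S2 / (2 * T))) := by
        have h2 : b l = 1 - a l := by have := hab l; linarith
        rw [h2]
        field_simp
        ring
      have e2 : 4 * κ' * (Sg l / S2) * a l = Sg l / T ^ 2 * a l := by
        rw [hκ]; field_simp
      have e3 : 4 * κ' * (Sg l / S2) * b l = Sg l / T ^ 2 * b l := by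
        rw [hκ]; field_simp
      rw [e1] at h1
      rw [e2, e3]
      exact h1

/-- emptiness in the plane for the special ratios -/
theorem star_spec {ι : Type} [Fintype ι] {x : ι → ℝ} {c W m : ℝ} (hx0 : ∀ i, 0 < x i)
    (hne : Nonempty ι) (hW0 : 0 < W) (hm : m = 4 ∨ m = 5 ∨ m = 6 ∨ m = 7 ∨ 8 ≤ m)
    (hc : c = m * W) (hsq : ∑ i, x i ^ 2 = c ^ 2)
    (hU : UU' x (2 * W)) (w : ι → ℕ) (d : ℕ) (hw : ∀ i, x i * d < c * w i) :
    Emp w {q : ℤ × ℤ | 0 ≤ q.1 ∧ 0 ≤ q.2 ∧ q.1 + q.2 ≤ (d : ℤ)} := by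
  classical
  have hm0 : 0 < m := by
    rcases hm with rfl | rfl | rfl | rfl | hm
    · norm_num
    · norm_num
    · norm_num
    · norm_num
    · linarith
  have hc0 : 0 < c := by rw [hc]; positivity
  have hs1 : ∀ i, ∃ t : ℝ, (d : ℝ) / c < t ∧ t * x i < w i := by
    intro i
    have h1 : (d : ℝ) / c < w i / x i := by
      rw [div_lt_div_iff₀ hc0 (hx0 i)]
      have := hw i
      linarith
    obtain ⟨t, h2, h3⟩ := exists_between h1
    exact ⟨t, h2, by rwa [lt_div_iff₀ (hx0 i)] at h3⟩
  choose t ht1 ht2 using hs1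
  obtain ⟨i1, -, hi1⟩ := Finset.exists_min_image (Finset.univ : Finset ι) t
    Finset.univ_nonempty
  have hd0 : (0 : ℝ) ≤ d := Nat.cast_nonneg d
  have hs : 0 < t i1 := lt_of_le_of_lt (by positivity) (ht1 i1)
  have hU1 := hU w (t i1) hs
    (fun i => lt_of_le_of_lt (mul_le_mul_of_nonneg_right (hi1 i (Finset.mem_univ _)) (hx0 i).le)
      (ht2 i)) 0 (m ^ 2 / 4) (by
      rw [hsq, hc]
      field_simp
      ring)
  rw [hsq, Real.sqrt_sq hc0.le] at hU1
  have h1 := reach (by positivity) hm hU1 0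
  refine h1.mono ?_
  rintro ⟨i, j⟩ ⟨h2, h3, h4⟩
  simp only at h2 h3 h4
  have h5 : (i : ℝ) + j ≤ d := by exact_mod_cast h4
  have h6 : (d : ℝ) < t i1 * c := by
    have := ht1 i1
    rwa [div_lt_iff₀ hc0] at this
  refine ⟨h3, ?_, ?_⟩
  · simp only
    have : (0 : ℝ) ≤ i := by exact_mod_cast h2
    linarith
  · simp only
    rw [zero_add (1 : ℝ), Real.sqrt_one]
    linarith

/-- the class of self-intersection zero with weights on several levels is nef -/
theorem nf_lev {n r : ℕ} {gr : Fin n → Fin r} {y top : Fin r → ℝ}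
    (hL : Lev gr y top) {c : ℝ} (hsq : ∑ i, y (gr i) ^ 2 = c ^ 2)
    (hc : ∃ W, (∀ l, top l ≤ W) ∧ (∃ l, top l = W) ∧ (c = 4 * W ∨ c = 5 * W ∨ 6 * W ≤ c)) :
    Pool.Agent.H350R3.NB.Nf ℂ (fun i => y (gr i)) c := by
  classical
  obtain ⟨W, hW1, ⟨l0, hl0⟩, hc⟩ := hc
  have hW0 : 0 < W := by rw [← hl0]; exact (hL.pos l0).trans_le (hL.le l0)
  have hc0 : 0 < c := by
    rcases hc with h | h | h <;> linarith
  have h1 := U_lev hL _ W ⟨l0, hl0⟩ le_rfl
  have hU : UU' (fun i : Fin n => y (gr i)) (2 * W) :=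
    UU'.equiv (Equiv.subtypeUnivEquiv fun i => hW1 (gr i)) h1
  refine NF.nf_of_star (fun i => y (gr i)) (fun i => hL.pos _) hc0 hsq fun w d hw => ?_
  obtain ⟨i0, hi0⟩ := hL.surj l0
  rcases hc with h | h | h
  · exact star_spec (fun i => hL.pos _) ⟨i0⟩ hW0 (Or.inl rfl) h hsq hU w d hw
  · exact star_spec (fun i => hL.pos _) ⟨i0⟩ hW0 (Or.inr (Or.inl rfl)) h hsq hU w d hw
  · exact star_rep' (fun i => hL.pos _) ⟨i0⟩ hW0 h hsq hU w d hw

end Pool.Agent.TH146.MN
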