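import Pool.Agent.TH146.MN.Dec

/-! The version with real weights: leading coefficients and expansions. -/

set_option autoImplicit false
set_option linter.unusedSectionVars false

namespace Pool.Agent.TH146.MN

open Pool.Agent.TH603.EL Pool.Agent.TH603.EL.Scal2 Pool.Agent.TH793.NG

theorem NN_degR {F : Type} [Field F] {κ : Type} [Fintype κ] [DecidableEq κ] (c : κ → F)
    (A B : Polynomial F) {M : ℝ} (hA : 2 * (A.natDegree : ℝ) ≤ M)
    (hB : B = 0 ∨ 2 * (B.natDegree : ℝ) + (2 * (Fintype.card κ : ℝ) + 1) ≤ M) :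
    ((NN c A B).natDegree : ℝ) ≤ M := by
  have hM : 0 ≤ M := le_trans (by positivity) hA
  have h1 : ((A ^ 2).natDegree : ℝ) ≤ M := by
    have h := Polynomial.natDegree_pow_le (p := A) (n := 2)
    have h' : ((A ^ 2).natDegree : ℝ) ≤ 2 * A.natDegree := by exact_mod_cast h
    linarith
  have h2 : (((1 + Polynomial.X) * PP c ^ 2 * B ^ 2).natDegree : ℝ) ≤ M := by
    rcases hB with hB | hB
    · subst hB; simpa using hM
    · have h3 : ((1 + Polynomial.X) * PP c ^ 2 : Polynomial F).natDegree ≤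
          1 + 2 * Fintype.card κ := by
        refine (Polynomial.natDegree_mul_le).trans ?_
        rw [one_add_X_deg, Polynomial.natDegree_pow, natDegree_PP]
      have h4 : (B ^ 2).natDegree ≤ 2 * B.natDegree := Polynomial.natDegree_pow_le
      have h5 : ((1 + Polynomial.X) * PP c ^ 2 * B ^ 2).natDegree ≤
          (1 + 2 * Fintype.card κ) + 2 * B.natDegree :=
        (Polynomial.natDegree_mul_le).trans (Nat.add_le_add h3 h4)
      have h6 : (((1 + Polynomial.X) * PP c ^ 2 * B ^ 2).natDegree : ℝ) ≤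
          (1 + 2 * (Fintype.card κ : ℝ)) + 2 * B.natDegree := by exact_mod_cast h5
      linarith
  have h3 := Polynomial.natDegree_sub_le (A ^ 2) ((1 + Polynomial.X) * PP c ^ 2 * B ^ 2)
  unfold NN
  rcases le_total (A ^ 2).natDegree ((1 + Polynomial.X) * PP c ^ 2 * B ^ 2).natDegree with h | h
  · rw [max_eq_right h] at h3
    exact le_trans (by exact_mod_cast h3) h2
  · rw [max_eq_left h] at h3
    exact le_trans (by exact_mod_cast h3) h1

section lead
variable {F : Type} [Field F] [CharZero F] {κ : Type} [Fintype κ] [DecidableEq κ]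

/-- the leading coefficients of a section on all tubes -/
theorem row_leadR {ε c : κ → F} {a b s : κ → ℝ} (ha : ∀ l, 0 < a l) (hb : ∀ l, 0 < b l)
    (hs : ∀ l, 0 < s l) (hab : ∀ l, a l + b l = 1) (hε2 : ∀ l, ε l ^ 2 = 1 + c l)
    (hε : ∀ l, ε l ≠ 0) (hc : Function.Injective c) {M : ℝ} (A B : Polynomial (HK F))
    (hne : A ≠ 0 ∨ B ≠ 0) (hA : 2 * (A.natDegree : ℝ) ≤ M)
    (hB : B = 0 ∨ 2 * (B.natDegree : ℝ) + (2 * (Fintype.card κ : ℝ) + 1) ≤ M)
    (hsm : ∀ l, M < s l) :
    ∃ (c0 : ℝ) (i0 i1 : κ → ℕ) (n : κ → ℝ), ∑ l, ((i0 l : ℝ) + i1 l) ≤ M ∧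
      ∀ l, Low (GG ε c a b s A B l) (n l) ∧ (∃ i j, cf (GG ε c a b s A B l) (n l) i j ≠ 0) ∧
        n l ≤ c0 + a l * i0 l ∧ n l ≤ c0 + b l * i1 l ∧
        ∀ i j, cf (GG ε c a b s A B l) (n l) i j ≠ 0 →
          j = 0 ∧ c0 + a l * i ≤ n l ∧ c0 - b l * i ≤ n l := by
  obtain ⟨c0, hcA, hcB, hcc⟩ := exists_min A B hne
  obtain ⟨N, hN⟩ : ∃ N : Polynomial F, N = NN c (bar c0 A) (bar c0 B) := ⟨_, rfl⟩
  have hN0 : N ≠ 0 := by rw [hN]; exact NN_ne c _ _ hcc
  have hNd : (N.natDegree : ℝ) ≤ M := by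
    rw [hN]
    have h1 : ((bar c0 A).natDegree : ℝ) ≤ A.natDegree := by exact_mod_cast natDegree_bar c0 A
    refine NN_degR c _ _ (by linarith) ?_
    rcases hB with hB | hB
    · left
      ext k
      rw [coeff_bar, hB]; simp
    · right
      have h2 : ((bar c0 B).natDegree : ℝ) ≤ B.natDegree := by exact_mod_cast natDegree_bar c0 B
      linarith
  have hwk : ∀ l, wk ε c l ≠ 0 := wk_ne hε hc
  have main : ∀ l, Mc (a l) (b l) (s l) c0 (GG ε c a b s A B l) ∧
      Ep (a l) c0 (GG ε c a b s A B l) * Em (b l) c0 (GG ε c a b s A B l) =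
        ((N.comp (ql c l) : Polynomial F) : PowerSeries F) := by
    intro l
    obtain ⟨σ, hσ, hp, hm⟩ := edges_yk (ha l) (hb l) (hs l) (hab l) hε2 (hwk l)
    have hxx := Mc_xk (c := c) (l := l) (ha l) (hb l) (hs l)
    have hyy := Mc_yk (ha l) (hb l) (hs l) (hab l) hε2 (hwk l)
    have hMA := evA_wedge hcA hxx
    have hMB := evA_wedge hcB hxx
    have hM : Mc (a l) (b l) (s l) c0 (GG ε c a b s A B l) := by
      unfold GG
      refine hMA.add ?_
      have := hMB.mul hyy
      rwa [add_zero] at this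
    have hEp : Ep (a l) c0 (GG ε c a b s A B l) =
        (((bar c0 A).comp (ql c l) : Polynomial F) : PowerSeries F) -
        (((bar c0 B).comp (ql c l) : Polynomial F) : PowerSeries F) * (σ * PowerSeries.X) := by
      have h1 := Ep_mul (ha l) (hb l) (hs l) hMB hyy
      rw [add_zero, hp, Ep_evA' (ha l) (hb l) (hs l) hcB hxx (Ep_xk (ha l))] at h1
      unfold GG
      rw [Ep_add, h1, Ep_evA' (ha l) (hb l) (hs l) hcA hxx (Ep_xk (ha l))]
      ring
    have hEm : Em (b l) c0 (GG ε c a b s A B l) =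
        (((bar c0 A).comp (ql c l) : Polynomial F) : PowerSeries F) +
        (((bar c0 B).comp (ql c l) : Polynomial F) : PowerSeries F) * (σ * PowerSeries.X) := by
      have h1 := Em_mul (ha l) (hb l) (hs l) hMB hyy
      rw [add_zero, hm, Em_evA' (ha l) (hb l) (hs l) hcB hxx (Em_xk (hb l))] at h1
      unfold GG
      rw [Em_add, h1, Em_evA' (ha l) (hb l) (hs l) hcA hxx (Em_xk (hb l))]
    refine ⟨hM, ?_⟩
    have hPP : (PP c).comp (ql c l) = Polynomial.X *
        ∏ j ∈ Finset.univ.erase l, (ql c l - Polynomial.C (c j)) := by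
      unfold PP
      rw [Polynomial.prod_comp, ← Finset.mul_prod_erase Finset.univ _ (Finset.mem_univ l)]
      congr 1
      · simp [ql]
      · refine Finset.prod_congr rfl fun j _ => ?_
        simp
    have hNc : N.comp (ql c l) = ((bar c0 A).comp (ql c l)) ^ 2 -
        Vl c l * Polynomial.X ^ 2 * ((bar c0 B).comp (ql c l)) ^ 2 := by
      rw [hN]
      unfold NN Vl
      rw [Polynomial.sub_comp, Polynomial.mul_comp, Polynomial.mul_comp, Polynomial.pow_comp,
        Polynomial.pow_comp, Polynomial.pow_comp, hPP, Polynomial.add_comp, Polynomial.one_comp,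
        Polynomial.X_comp, Finset.prod_pow]
      ring
    rw [hEp, hEm, hNc]
    push_cast
    linear_combination (-(PowerSeries.X ^ 2) *
      (((bar c0 B).comp (ql c l) : Polynomial F) : PowerSeries F) ^ 2) * hσ
  have hNs : ∀ l, ((N.comp (ql c l) : Polynomial F) : PowerSeries F) ≠ 0 := by
    intro l h
    have h1 : N.comp (ql c l) = 0 := by exact_mod_cast h
    have h2 := congrArg (fun p => Polynomial.comp p (Polynomial.X - Polynomial.C (c l))) h1
    simp only [Polynomial.comp_assoc, ql, Polynomial.add_comp, Polynomial.X_comp,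
      Polynomial.C_comp, sub_add_cancel, Polynomial.comp_X, Polynomial.zero_comp] at h2
    exact hN0 h2
  have hEp0 : ∀ l, Ep (a l) c0 (GG ε c a b s A B l) ≠ 0 := fun l h =>
    hNs l (by rw [← (main l).2, h, zero_mul])
  have hEm0 : ∀ l, Em (b l) c0 (GG ε c a b s A B l) ≠ 0 := fun l h =>
    hNs l (by rw [← (main l).2, h, mul_zero])
  obtain ⟨i0, hi0⟩ : ∃ i0 : κ → ℕ, ∀ l, (Ep (a l) c0 (GG ε c a b s A B l)).order = i0 l :=
    ⟨_, fun l => (PowerSeries.coe_toNat_order (hEp0 l)).symm⟩
  obtain ⟨i1, hi1⟩ : ∃ i1 : κ → ℕ, ∀ l, (Em (b l) c0 (GG ε c a b s A B l)).order = i1 l :=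
    ⟨_, fun l => (PowerSeries.coe_toNat_order (hEm0 l)).symm⟩
  have hsumN : ∑ l, (i0 l + i1 l) ≤ N.natDegree := by
    refine orders_le c hc hN0 (fun l => i0 l + i1 l) fun l => ?_
    rw [Polynomial.X_pow_dvd_iff]
    intro d hd
    rw [← Polynomial.coeff_coe]
    apply PowerSeries.coeff_of_lt_order
    rw [← (main l).2, PowerSeries.order_mul, hi0 l, hi1 l]
    exact_mod_cast hd
  have hsum : ∑ l, ((i0 l : ℝ) + i1 l) ≤ M := by
    have : ((∑ l, (i0 l + i1 l) : ℕ) : ℝ) ≤ N.natDegree := by exact_mod_cast hsumN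
    push_cast at this
    linarith
  refine ⟨c0, i0, i1, fun l => (GG ε c a b s A B l).order, hsum, fun l => ?_⟩
  beta_reduce
  obtain ⟨hM, -⟩ := main l
  obtain ⟨G, hG⟩ : ∃ G, G = GG ε c a b s A B l := ⟨_, rfl⟩
  have hEpl := hEp0 l
  have hEml := hEm0 l
  have hi0l := hi0 l
  have hi1l := hi1 l
  rw [← hG] at hM hEpl hEml hi0l hi1l ⊢
  have h0 : cf G (c0 + a l * i0 l) (i0 l) 0 ≠ 0 := by
    have := PowerSeries.coeff_order hEpl
    rw [hi0l] at this
    simpa [Ep] using this
  have h1 : cf G (c0 + b l * i1 l) (-(i1 l)) 0 ≠ 0 := by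
    have := PowerSeries.coeff_order hEml
    rw [hi1l] at this
    simpa [Em] using this
  have hcoeff : ∀ n i j, cf G n i j ≠ 0 → G.coeff n ≠ 0 := by
    intro n i j h h2
    apply h
    unfold cf
    rw [h2]; simp
  have hG0 : G ≠ 0 := by
    intro h
    apply h0
    rw [h, Pool.Agent.TH793.NG.cf_zero]
  have ho0 : G.order ≤ c0 + a l * i0 l :=
    HahnSeries.order_le_of_coeff_ne_zero (hcoeff _ _ _ h0)
  have ho1 : G.order ≤ c0 + b l * i1 l :=
    HahnSeries.order_le_of_coeff_ne_zero (hcoeff _ _ _ h1)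
  have hle' : (i0 l : ℝ) + i1 l ≤ M :=
    (Finset.single_le_sum (f := fun l => (i0 l : ℝ) + i1 l) (fun _ _ => by positivity)
      (Finset.mem_univ l)).trans hsum
  have hi0' : (0 : ℝ) ≤ i0 l := Nat.cast_nonneg _
  have hi1' : (0 : ℝ) ≤ i1 l := Nat.cast_nonneg _
  refine ⟨fun n hn => HahnSeries.coeff_eq_zero_of_lt_order hn, ?_, ho0, ho1, ?_⟩
  · by_contra hcon
    push Not at hcon
    apply HahnSeries.coeff_order_eq_zero.not.2 hG0
    ext ⟨i, j⟩
    exact hcon i j
  · intro i j hij
    obtain ⟨g1, g2, g3⟩ := hM _ _ _ hij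
    have hj : j = 0 := by
      by_contra hj
      have hj1 : (1 : ℝ) ≤ j := by
        have : 1 ≤ j := by omega
        exact_mod_cast this
      have hsl := hs l
      have hal := ha l
      have hbl := hb l
      have habl := hab l
      have hsml := hsm l
      have h5 : s l ≤ s l * j := by nlinarith
      have h6 : a l * i0 l ≤ M := by nlinarith
      rcases le_total (0 : ℝ) i with h7 | h7
      · nlinarith
      · nlinarith
    subst hj
    push_cast at g2 g3
    exact ⟨rfl, by linarith, by linarith⟩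


end lead

section dec
variable {F : Type} [Field F] {κ : Type} [Fintype κ] [DecidableEq κ]

/-- weights of the coefficients -/
def WtR (δ e : ℝ) (A : PXY F) : Prop :=
  ∀ j : ℕ, A.coeff j = 0 ∨ ((A.coeff j).natDegree : ℝ) + 2 * δ * j ≤ e

theorem WtR.add {δ e : ℝ} {A B : PXY F} (hA : WtR δ e A) (hB : WtR δ e B) :
    WtR δ e (A + B) := by
  intro j
  rw [Polynomial.coeff_add]
  rcases hA j with h1 | h1
  · rw [h1, zero_add]; exact hB j
  · rcases hB j with h2 | h2
    · rw [h2, add_zero]; right; exact h1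
    · right
      have h3 := Polynomial.natDegree_add_le (A.coeff j) (B.coeff j)
      rcases le_total (A.coeff j).natDegree (B.coeff j).natDegree with h5 | h5
      · rw [max_eq_right h5] at h3
        have h4 : ((A.coeff j + B.coeff j).natDegree : ℝ) ≤ (B.coeff j).natDegree := by
          exact_mod_cast h3
        linarith
      · rw [max_eq_left h5] at h3
        have h4 : ((A.coeff j + B.coeff j).natDegree : ℝ) ≤ (A.coeff j).natDegree := by
          exact_mod_cast h3
        linarith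

theorem WtR.zero {δ e : ℝ} : WtR δ e (0 : PXY F) := fun j => Or.inl (by simp)

theorem WtR.mulX {δ e : ℝ} {A : PXY F} (hA : WtR δ (e - 2 * δ) A) :
    WtR δ e (A * Polynomial.X) := by
  intro j
  rcases j with _ | j
  · left; simp
  · rw [Polynomial.coeff_mul_X]
    rcases hA j with h | h
    · left; exact h
    · right; push_cast; linarith

theorem WtR.C {δ e : ℝ} {p : Polynomial (HK F)} (hp : p = 0 ∨ (p.natDegree : ℝ) ≤ e) :
    WtR δ e (Polynomial.C p) := by
  intro j
  rcases j with _ | j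
  · rw [Polynomial.coeff_C_zero]
    rcases hp with h | h
    · left; exact h
    · right; simpa using h
  · left
    rw [Polynomial.coeff_C_succ]

/-- expansions in powers of the equation -/
def GoodR (c : κ → F) (δ e : ℝ) (p : PXY F) : Prop :=
  ∃ A B : PXY F, WtR δ e A ∧ WtR δ (e - δ) B ∧ p = A.comp (hhN c) + B.comp (hhN c) * Polynomial.X

variable {c : κ → F}

theorem GoodR.zero {δ e : ℝ} : GoodR c δ e (0 : PXY F) :=
  ⟨0, 0, WtR.zero, WtR.zero, by simp⟩

theorem GoodR.add {δ e : ℝ} {p q : PXY F} (hp : GoodR c δ e p) (hq : GoodR c δ e q) :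
    GoodR c δ e (p + q) := by
  obtain ⟨A, B, h1, h2, rfl⟩ := hp
  obtain ⟨A', B', h1', h2', rfl⟩ := hq
  refine ⟨A + A', B + B', h1.add h1', h2.add h2', ?_⟩
  rw [Polynomial.add_comp, Polynomial.add_comp]; ring

theorem GoodR.sum {δ e : ℝ} {τ : Type*} (t : Finset τ) (f : τ → PXY F)
    (h : ∀ k ∈ t, GoodR c δ e (f k)) : GoodR c δ e (∑ k ∈ t, f k) := by
  classical
  induction t using Finset.induction_on with
  | empty => simpa using GoodR.zero
  | insert k t hk ih =>
    rw [Finset.sum_insert hk]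
    exact (h k (Finset.mem_insert_self _ _)).add (ih fun j hj => h j (Finset.mem_insert_of_mem hj))

theorem GoodR.mulh {δ e : ℝ} {p : PXY F} (hp : GoodR c δ (e - 2 * δ) p) :
    GoodR c δ e (p * hhN c) := by
  obtain ⟨A, B, h1, h2, rfl⟩ := hp
  refine ⟨A * Polynomial.X, B * Polynomial.X, h1.mulX, ?_, ?_⟩
  · apply WtR.mulX
    have : e - δ - 2 * δ = e - 2 * δ - δ := by ring
    rw [this]; exact h2
  · rw [Polynomial.mul_comp, Polynomial.mul_comp, Polynomial.X_comp]; ring

theorem GoodR.mono_pow {δ : ℝ} (hδ : 2 * (Fintype.card κ : ℝ) + 1 ≤ 2 * δ) (k : ℕ) :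
    ∀ (e : ℝ) (p : Polynomial (HK F)),
    (p = 0 ∨ (p.natDegree : ℝ) + δ * k ≤ e) → GoodR c δ e (Polynomial.C p * Polynomial.X ^ k) := by
  induction k using Nat.strong_induction_on with
  | _ k ih =>
    intro e p hp
    rcases k with _ | k
    · refine ⟨Polynomial.C p, 0, WtR.C ?_, WtR.zero, ?_⟩
      · rcases hp with h | h
        · left; exact h
        · right; simpa using h
      · simp
    · rcases k with _ | k
      · refine ⟨0, Polynomial.C p, WtR.zero, WtR.C ?_, ?_⟩
        · rcases hp with h | h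
          · left; exact h
          · right
            push_cast at h
            linarith
        · simp
      · have e1 : Polynomial.C p * Polynomial.X ^ (k + 1 + 1) =
            (Polynomial.C p * Polynomial.X ^ k) * hhN c +
              Polynomial.C (p * rhsN c) * Polynomial.X ^ k := by
          unfold hhN
          rw [Polynomial.C_mul]
          ring
        rw [e1]
        refine (GoodR.mulh (ih k (by omega) _ p ?_)).add (ih k (by omega) _ _ ?_)
        · rcases hp with h | h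
          · left; exact h
          · right
            push_cast at h ⊢
            linarith
        · rcases hp with h | h
          · left; rw [h, zero_mul]
          · right
            have h2 : ((p * rhsN c).natDegree : ℝ) ≤
                p.natDegree + (2 * (Fintype.card κ : ℝ) + 1) := by
              have := (Polynomial.natDegree_mul_le (p := p) (q := rhsN c)).trans
                (Nat.add_le_add_left (rhsN_deg c) _)
              exact_mod_cast this
            push_cast at h ⊢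
            linarith

end dec

section lead2
variable {F : Type} [Field F] [CharZero F] {κ : Type} [Fintype κ] [DecidableEq κ]

/-- the leading coefficient of a nonzero polynomial of weight at most `e` on one of the tubes -/
theorem multi_leadR [Nonempty κ] {ε c : κ → F} {a b s γ : κ → ℝ} (ha : ∀ l, 0 < a l)
    (hb : ∀ l, 0 < b l) (hab : ∀ l, a l + b l = 1) (hε2 : ∀ l, ε l ^ 2 = 1 + c l)
    (hε : ∀ l, ε l ≠ 0) (hc : Function.Injective c) {δ e : ℝ} (hδ : 2 * (Fintype.card κ : ℝ) + 1 ≤ 2 * δ)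
    (hγ : ∑ l, γ l = 1) {σ : ℝ} (hσ : ∀ l, 1 + s l = σ + 4 * δ * γ l * (a l * b l))
    (he : 0 ≤ e) (hse : ∀ l, 2 * e < s l) {p : PXY F} (hp : p ≠ 0) (hg : GoodR c δ e p) :
    ∃ (l : κ) (n : ℝ), (∃ i j, cf (EV (xk c l (a l) (b l) (s l)) (yk ε c l (a l) (b l) (s l)) p)
        n i j ≠ 0) ∧
      ∀ i j, cf (EV (xk c l (a l) (b l) (s l)) (yk ε c l (a l) (b l) (s l)) p) n i j ≠ 0 →
        0 ≤ j ∧ -(2 * a l * γ l * (e - 2 * δ * j)) ≤ (i : ℝ) ∧
          (i : ℝ) ≤ 2 * b l * γ l * (e - 2 * δ * j) := by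
  classical
  obtain ⟨A, B, hA, hB, rfl⟩ := hg
  have hs : ∀ l, 0 < s l := fun l => by
    have := hse l
    linarith
  have hwk : ∀ l, wk ε c l ≠ 0 := wk_ne hε hc
  obtain ⟨N, hNA, hNB⟩ : ∃ N, A.natDegree < N ∧ B.natDegree < N :=
    ⟨max A.natDegree B.natDegree + 1, by omega, by omega⟩
  obtain ⟨G, hG⟩ : ∃ G : ℕ → κ → HR F, ∀ j l, G j l = GG ε c a b s (A.coeff j) (B.coeff j) l :=
    ⟨_, fun _ _ => rfl⟩
  have hpow : ∀ (l : κ) (j : ℕ), tz F (1 + s l) 0 1 ^ j = tz F (j * (1 + s l)) 0 j := by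
    intro l j
    induction j with
    | zero =>
      simp only [pow_zero, Nat.cast_zero, zero_mul]
      rfl
    | succ j ih =>
      rw [pow_succ, ih, tz_mul]
      congr 1 <;> (push_cast; ring)
  have hval : ∀ l, EV (xk c l (a l) (b l) (s l)) (yk ε c l (a l) (b l) (s l))
      (A.comp (hhN c) + B.comp (hhN c) * Polynomial.X) =
      ∑ j ∈ Finset.range N, tz F (j * (1 + s l)) 0 j * (G j l *
        (-4 * ((1 + xk c l (a l) (b l) (s l)) * Rk c l (a l) (b l) (s l))) ^ j) := by
    intro l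
    rw [map_add, map_mul, EV_X, EV_comp' _ _ _ A N hNA, EV_comp' _ _ _ B N hNB, Finset.sum_mul,
      ← Finset.sum_add_distrib]
    refine Finset.sum_congr rfl fun j _ => ?_
    rw [EV_hhN (ha l) (hb l) (hs l) (hab l) hε2 (hwk l), mul_pow, hpow, hG j l]
    unfold GG
    ring
  -- the indices with nonzero sections
  obtain ⟨J, hJ⟩ : ∃ J : Finset ℕ,
      J = (Finset.range N).filter fun j => A.coeff j ≠ 0 ∨ B.coeff j ≠ 0 := ⟨_, rfl⟩
  have hδ0 : 0 ≤ δ := by
    have : (0 : ℝ) ≤ Fintype.card κ := Nat.cast_nonneg _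
    linarith
  have hJm : ∀ j ∈ J, 0 ≤ e - 2 * δ * j := by
    intro j hj
    rw [hJ, Finset.mem_filter] at hj
    rcases hj.2 with h | h
    · rcases hA j with h1 | h1
      · exact absurd h1 h
      · have : (0 : ℝ) ≤ ((A.coeff j).natDegree : ℝ) := Nat.cast_nonneg _
        linarith
    · rcases hB j with h1 | h1
      · exact absurd h1 h
      · have : (0 : ℝ) ≤ ((B.coeff j).natDegree : ℝ) := Nat.cast_nonneg _
        linarith
  have hlead : ∀ j ∈ J, ∃ (c0 : ℝ) (i0 i1 : κ → ℕ) (n : κ → ℝ),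
      ∑ l, ((i0 l : ℝ) + i1 l) ≤ 2 * (e - 2 * δ * j) ∧
      ∀ l, Low (G j l) (n l) ∧ (∃ i j', cf (G j l) (n l) i j' ≠ 0) ∧
        n l ≤ c0 + a l * i0 l ∧ n l ≤ c0 + b l * i1 l ∧
        ∀ i j', cf (G j l) (n l) i j' ≠ 0 →
          j' = 0 ∧ c0 + a l * i ≤ n l ∧ c0 - b l * i ≤ n l := by
    intro j hj
    have hm := hJm j hj
    have hj0 : (0 : ℝ) ≤ 2 * δ * j := by positivity
    rw [hJ, Finset.mem_filter] at hj
    obtain ⟨c0, i0, i1, n, h1, h2⟩ := row_leadR (F := F) ha hb hs hab hε2 hε hc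
      (M := 2 * (e - 2 * δ * j)) (A.coeff j) (B.coeff j) hj.2 (by
        rcases hA j with h | h
        · rw [h]; simp; linarith
        · linarith) (by
        rcases hB j with h | h
        · left; exact h
        · right
          linarith) (fun l => by have := hse l; linarith)
    refine ⟨c0, i0, i1, n, ?_, fun l => ?_⟩
    · exact h1
    · rw [hG j l]
      exact h2 l
  choose! c0 i0 i1 nu hsum hrow using hlead
  have hJne : J.Nonempty := by
    by_contra hcon
    rw [Finset.not_nonempty_iff_eq_empty] at hcon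
    apply hp
    have hz : ∀ j, A.coeff j = 0 ∧ B.coeff j = 0 := by
      intro j
      by_cases hj : j < N
      · have : j ∉ J := by rw [hcon]; simp
        rw [hJ, Finset.mem_filter] at this
        push Not at this
        exact this (Finset.mem_range.2 hj)
      · exact ⟨Polynomial.coeff_eq_zero_of_natDegree_lt (by omega),
          Polynomial.coeff_eq_zero_of_natDegree_lt (by omega)⟩
    have hA0 : A = 0 := by ext1 j; simpa using (hz j).1
    have hB0 : B = 0 := by ext1 j; simpa using (hz j).2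
    rw [hA0, hB0]; simp
  have htube : ∀ l, ∃ M : ℝ, (∃ i j, cf (EV (xk c l (a l) (b l) (s l))
        (yk ε c l (a l) (b l) (s l)) (A.comp (hhN c) + B.comp (hhN c) * Polynomial.X))
        M i j ≠ 0) ∧ (∀ j ∈ J, M ≤ nu j l + j * (1 + s l)) ∧
      ∀ i j', cf (EV (xk c l (a l) (b l) (s l)) (yk ε c l (a l) (b l) (s l))
        (A.comp (hhN c) + B.comp (hhN c) * Polynomial.X)) M i j' ≠ 0 →
        ∃ j ∈ J, j' = j ∧ nu j l + j * (1 + s l) = M ∧ cf (G j l) (nu j l) i 0 ≠ 0 := by
    intro l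
    rw [hval l]
    obtain ⟨v, hv, hu1, hu2⟩ := unit_coeff (c := c) (l := l) (ha l) (hb l) (hs l) (hab l) hε2
      (hwk l)
    refine tube_lead N J (by rw [hJ]; exact Finset.filter_subset _ _) (fun j => G j l) ?_
      (fun j => nu j l) (fun j hj => (hrow j hj l).1) (fun j hj => (hrow j hj l).2.1)
      (fun j hj i j' h => ((hrow j hj l).2.2.2.2 i j' h).1) hv hu1 hu2 (s l) hJne
    intro j hj hjJ
    rw [hJ, Finset.mem_filter] at hjJ
    push Not at hjJ
    obtain ⟨hA0, hB0⟩ := hjJ hj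
    rw [hG j l, hA0, hB0]
    simp [GG, evA]
  choose M hM1 hM2 hM3 using htube
  obtain ⟨k, -, hk⟩ := Finset.exists_min_image (Finset.univ : Finset κ)
    (fun l => M l - 2 * e * γ l * (a l * b l)) Finset.univ_nonempty
  refine ⟨k, M k, hM1 k, fun i j' h => ?_⟩
  obtain ⟨j, hj, hjj, hMj, hcf⟩ := hM3 k i j' h
  obtain ⟨_, g2, g3⟩ := (hrow j hj k).2.2.2.2 i 0 hcf
  have hsel := select (γ := γ) ha hb hab hγ (m := e - 2 * δ * j) (c0 := c0 j) (i0 := i0 j)
    (i1 := i1 j) (n := nu j) (hsum j hj) (fun l => (hrow j hj l).2.2.1)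
    (fun l => (hrow j hj l).2.2.2.1) (k := k) (fun l => by
      have h1 := hM2 l j hj
      have h2 := hk l (Finset.mem_univ l)
      have h3 := hσ l
      have h4 := hσ k
      have h5 : nu j k = M k - j * (1 + s k) := by linarith
      have h6 : M l - j * (1 + s l) ≤ nu j l := by linarith
      rw [h3] at h6
      rw [h4] at h5
      rw [h5]
      nlinarith [h2, h6]) g2 g3
  rw [hjj]
  push_cast
  exact ⟨Int.natCast_nonneg _, hsel.1, hsel.2⟩

end lead2

end Pool.Agent.TH146.MN
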