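import Pool.Agent.TH146.MN.Key
import Pool.Agent.TH146.MN.P2
import Pool.Agent.TH545.Nag.Gen
import Pool.Agent.TH698.NagT3

/-! Emptiness in the plane for groups of points with weights. -/

set_option autoImplicit false
set_option linter.unusedSectionVars false

namespace Pool.Agent.TH146.MN

open Pool.Agent.TH176.Nag Pool.Agent.TH181.Nag

/-- the shapes of the triangle of a group of weight `x` -/
theorem PS_weight {ι : Type} [Fintype ι] {x : ℝ} (hx0 : 0 < x) (hx1 : x ≤ 1)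
    (hn : 0 < Fintype.card ι)
    (h : x = 1 ∨ ∃ v : ℤ, (Fintype.card ι : ℝ) * x * (1 - x) < v ∧
      (v : ℝ) < (Fintype.card ι : ℝ) * x) :
    ∃ a b : ℝ, 0 < a ∧ 0 < b ∧ a + b = 1 ∧ PS (√(Fintype.card ι)) ι
      ((Fintype.card ι : ℝ) * x ^ 2 * a) ((Fintype.card ι : ℝ) * x ^ 2 * b) := by
  have hn' : (0 : ℝ) < Fintype.card ι := by exact_mod_cast hn
  rcases h with rfl | ⟨v, h1, h2⟩
  · refine ⟨1 / 2, 1 / 2, by norm_num, by norm_num, by norm_num, ?_⟩
    apply PS.final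
    · positivity
    · positivity
    · ring
  · have hk : 0 < (Fintype.card ι : ℝ) * x ^ 2 := by positivity
    refine ⟨((Fintype.card ι : ℝ) * x - v) / ((Fintype.card ι : ℝ) * x ^ 2),
      (v - (Fintype.card ι : ℝ) * x * (1 - x)) / ((Fintype.card ι : ℝ) * x ^ 2), ?_, ?_, ?_, ?_⟩
    · exact div_pos (by linarith) hk
    · exact div_pos (by linarith) hk
    · rw [← add_div, div_eq_one_iff_eq hk.ne']
      ring
    · rw [mul_div_cancel₀ _ hk.ne', mul_div_cancel₀ _ hk.ne']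
      have e0 : (Fintype.card ι : ℝ) * x - v + (v - (Fintype.card ι : ℝ) * x * (1 - x)) =
          (Fintype.card ι : ℝ) * x ^ 2 := by ring
      refine PS.stepA 1 v isCoprime_one_left (by norm_num) ?_ ?_ ?_ ?_
      · push_cast
        have : 0 < (Fintype.card ι : ℝ) * x := by positivity
        linarith
      · push_cast
        have : 0 ≤ (Fintype.card ι : ℝ) * x * (1 - x) :=
          mul_nonneg (by positivity) (by linarith)
        linarith
      · rw [e0]; exact hk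
      · rw [e0]
        have e1 : ((1 : ℤ) : ℝ) * (((1 : ℤ) : ℝ) * ((Fintype.card ι : ℝ) * x - v) + v) =
            (Fintype.card ι : ℝ) * x := by push_cast; ring
        have e2 : ((v : ℝ) - ((1 : ℤ) : ℝ) * (v - (Fintype.card ι : ℝ) * x * (1 - x))) *
            (((1 : ℤ) : ℝ) * ((Fintype.card ι : ℝ) * x - v) + v) /
            ((Fintype.card ι : ℝ) * x ^ 2) = (Fintype.card ι : ℝ) * (1 - x) := by
          push_cast
          field_simp
          ring
        rw [e1, e2]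
        apply PS.final
        · positivity
        · exact mul_nonneg hn'.le (by linarith)
        · ring

theorem Reg_finite {α β μ ν : ℝ} (hμ : 0 ≤ μ) (hν : 0 ≤ ν) (hs : 0 < μ + ν) :
    (Reg α β μ ν).Finite := by
  apply Set.Finite.subset (Set.finite_Icc ((⌊α⌋, 0) : ℤ × ℤ) (⌈β⌉, ⌈(β - α) / (μ + ν)⌉))
  rintro ⟨i, j⟩ ⟨h1, h2, h3⟩
  simp only at h1 h2 h3
  have hj : (0 : ℝ) ≤ j := by exact_mod_cast h1
  rw [Set.mem_Icc, Prod.mk_le_mk, Prod.mk_le_mk]
  refine ⟨⟨?_, h1⟩, ?_, ?_⟩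
  · have h4 : α ≤ i := by nlinarith
    exact_mod_cast (Int.floor_le α).trans h4
  · have h4 : (i : ℝ) ≤ β := by nlinarith
    exact_mod_cast h4.trans (Int.le_ceil β)
  · have h4 : (j : ℝ) ≤ (β - α) / (μ + ν) := by
      rw [le_div_iff₀ hs]; nlinarith
    exact_mod_cast h4.trans (Int.le_ceil _)

/-- emptiness at algebraically independent points, without the assumption that the exponents are
nonnegative -/
theorem Emp_generic' {ι : Type} [Finite ι] {w : ι → ℕ} {S : Set (ℤ × ℤ)} (hfin : S.Finite)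
    (h : Emp w S) {x y : ι → ℂ} (hx : ∀ i, x i ≠ 0) (hy : ∀ i, y i ≠ 0)
    (hxy : AlgebraicIndependent ℚ (fun q : ι × Fin 2 => ![x q.1, y q.1] q.2)) :
    ∀ f : (ℤ × ℤ) →₀ ℂ, (↑f.support : Set (ℤ × ℤ)) ⊆ S → (∀ i, LM f (x i) (y i) (w i)) →
      f = 0 := by
  classical
  obtain ⟨M, hM⟩ : ∃ M : ℤ, ∀ m ∈ S, -M ≤ m.1 ∧ -M ≤ m.2 := by
    obtain ⟨B, hB⟩ := (hfin.image fun m : ℤ × ℤ => max (-m.1) (-m.2)).bddAbove
    refine ⟨B, fun m hm => ?_⟩
    have := hB ⟨m, hm, rfl⟩
    simp only at this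
    constructor
    · have := (le_max_left (-m.1) (-m.2)).trans this; omega
    · have := (le_max_right (-m.1) (-m.2)).trans this; omega
  obtain ⟨φ, hφ⟩ : ∃ φ : ℤ × ℤ → ℤ × ℤ, ∀ m, φ m = (m.1 + M, m.2 + M) := ⟨_, fun _ => rfl⟩
  have hinj : Function.Injective φ := by
    intro m m' h
    rw [hφ, hφ, Prod.mk.injEq] at h
    exact Prod.ext (by omega) (by omega)
  have h' : Emp w (φ '' S) := by
    refine h.comap 1 0 0 1 (-M) (-M) (by norm_num) ?_
    rintro _ ⟨m, hm, rfl⟩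
    rw [hφ]
    have e : ((1 * (m.1 + M, m.2 + M).1 + 0 * (m.1 + M, m.2 + M).2 + -M,
        0 * (m.1 + M, m.2 + M).1 + 1 * (m.1 + M, m.2 + M).2 + -M) : ℤ × ℤ) = m := by
      ext <;> simp
    rw [e]
    exact hm
  intro f hf hLM
  have key := Pool.Agent.TH545.Nag.Emp_generic (hfin.image φ) (by
    rintro _ ⟨m, hm, rfl⟩
    rw [hφ]
    obtain ⟨h1, h2⟩ := hM m hm
    constructor
    · simp only; omega
    · simp only; omega) h' hxy (f.mapDomain φ) (by
    intro m hm
    have h1 := Finsupp.mapDomain_support hm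
    rw [Finset.mem_image] at h1
    obtain ⟨m', hm', rfl⟩ := h1
    exact ⟨m', hf hm', rfl⟩) (fun i => by
      refine (hLM i).relabel φ rfl (x i ^ M * y i ^ M) ?_ M 1 0 M 0 1 ?_ ?_
      · intro m _
        rw [hφ]
        simp only
        rw [zpow_add₀ (hx i), zpow_add₀ (hy i)]
        ring
      · intro m _
        rw [hφ]
        push_cast
        ring
      · intro m _
        rw [hφ]
        push_cast
        ring)
  have h1 : f.mapDomain φ = (0 : (ℤ × ℤ) →₀ ℂ).mapDomain φ := by rw [key]; simp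
  exact Finsupp.mapDomain_injective hinj h1

theorem Reg_mono_scale {a b γ e t : ℝ} {E : ℝ} (hE : e ≤ E) (ha : 0 ≤ a) (hb : 0 ≤ b)
    (hγ : 0 ≤ γ) : Reg (-(2 * a * γ * e)) (2 * b * γ * e) (4 * t * γ * a) (4 * t * γ * b) ⊆
    Reg (-(2 * a * γ * E)) (2 * b * γ * E) (4 * t * γ * a) (4 * t * γ * b) := by
  rintro ⟨i, j⟩ ⟨h1, h2, h3⟩
  simp only at h1 h2 h3
  have h4 : 2 * a * γ * e ≤ 2 * a * γ * E := mul_le_mul_of_nonneg_left hE (by positivity)
  have h5 : 2 * b * γ * e ≤ 2 * b * γ * E := mul_le_mul_of_nonneg_left hE (by positivity)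
  refine ⟨h1, ?_, ?_⟩
  · simp only; linarith
  · simp only; linarith

/-- emptiness when the multiplicities of every group are large -/
theorem star {n r k : ℕ} (hk : 1 ≤ k) (hr0 : 0 < r) (hr : r < k ^ 2) (gr : Fin n → Fin r)
    (hgr : Function.Surjective gr) (x : Fin r → ℝ) (hx0 : ∀ l, 0 < x l) (hx1 : ∀ l, x l ≤ 1)
    (hsq : ∑ l, (Fintype.card {i // gr i = l} : ℝ) * x l ^ 2 = (2 * k) ^ 2)
    (hgap : ∀ l, x l = 1 ∨ ∃ v : ℤ, (Fintype.card {i // gr i = l} : ℝ) * x l * (1 - x l) < v ∧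
      (v : ℝ) < (Fintype.card {i // gr i = l} : ℝ) * x l)
    (w : Fin n → ℕ) (d : ℕ)
    (hw : ∀ l, (Fintype.card {i // gr i = l} : ℝ) * x l * d <
      2 * k * ∑ i : {i // gr i = l}, (w i : ℝ)) :
    Emp w {q : ℤ × ℤ | 0 ≤ q.1 ∧ 0 ≤ q.2 ∧ q.1 + q.2 ≤ (d : ℤ)} := by
  classical
  have hk' : (0 : ℝ) < k := by exact_mod_cast hk
  have hcard : ∀ l, 0 < Fintype.card {i // gr i = l} := fun l => by
    obtain ⟨i, hi⟩ := hgr l
    exact Fintype.card_pos_iff.2 ⟨⟨i, hi⟩⟩
  have hcard' : ∀ l, (0 : ℝ) < Fintype.card {i // gr i = l} := fun l => by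
    exact_mod_cast hcard l
  choose a b ha hb hab hPS using fun l => PS_weight (hx0 l) (hx1 l) (hcard l) (hgap l)
  obtain ⟨γ, hγ⟩ : ∃ γ : Fin r → ℝ, ∀ l, γ l =
      (Fintype.card {i // gr i = l} : ℝ) * x l ^ 2 / (2 * k) ^ 2 := ⟨_, fun _ => rfl⟩
  have hγ0 : ∀ l, 0 < γ l := fun l => by
    rw [hγ]
    have h1 := hcard' l
    have h2 := hx0 l
    positivity
  have hγ1 : ∑ l, γ l = 1 := by
    simp only [hγ]
    rw [← Finset.sum_div, hsq]
    exact div_self (by positivity)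
  obtain ⟨z, hz⟩ := Pool.Agent.TH698.NagT3.exists_indep (Fin n × Fin 2)
  have hzx : ∀ i, z (i, 0) ≠ 0 := fun i => hz.ne_zero (i, 0)
  have hzy : ∀ i, z (i, 1) ≠ 0 := fun i => hz.ne_zero (i, 1)
  have hz1 : ∀ i, z (i, 0) ^ 2 ≠ 1 := by
    intro i h
    have h1 := hz.transcendental (i, 0)
    apply h1
    refine ⟨Polynomial.X ^ 2 - 1, ?_, ?_⟩
    · intro h2
      have := congrArg (Polynomial.eval 0) h2
      simp at this
    · simp [h]
  -- the groups
  have hE : ∀ l, ∀ f : (ℤ × ℤ) →₀ ℂ, (↑f.support : Set (ℤ × ℤ)) ⊆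
      Reg (-(2 * a l * γ l * (k * d : ℕ))) (2 * b l * γ l * (k * d : ℕ))
        (4 * (k ^ 2 : ℕ) * γ l * a l) (4 * (k ^ 2 : ℕ) * γ l * b l) →
      (∀ i, gr i = l → LM f (z (i, 0)) (z (i, 1)) (w i)) → f = 0 := by
    intro l f hf hLM
    have hN := hcard' l
    have hxl := hx0 l
    obtain ⟨N, hNdef⟩ : ∃ N : ℝ, N = (Fintype.card {i // gr i = l} : ℝ) := ⟨_, rfl⟩
    have hNx : 0 < N * x l := by rw [hNdef]; positivity
    -- a slightly larger degree
    obtain ⟨D, hD1, hD2⟩ : ∃ D : ℝ, (d : ℝ) < D ∧ N * x l * D <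
        2 * k * ∑ i : {i // gr i = l}, (w i : ℝ) := by
      have h1 := hw l
      rw [← hNdef] at h1
      have h2 : (d : ℝ) < (2 * k * ∑ i : {i // gr i = l}, (w i : ℝ)) / (N * x l) := by
        rw [lt_div_iff₀ hNx]; linarith
      obtain ⟨D, h3, h4⟩ := exists_between h2
      refine ⟨D, h3, ?_⟩
      rw [lt_div_iff₀ hNx] at h4
      linarith
    have hd0 : (0 : ℝ) ≤ d := Nat.cast_nonneg d
    have hD0 : 0 < D := lt_of_le_of_lt hd0 hD1
    have hsN : 0 < √N := Real.sqrt_pos.2 (by rw [hNdef]; exact hN)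
    have hsN2 : √N ^ 2 = N := Real.sq_sqrt (by rw [hNdef]; exact hN.le)
    have hemp : Emp (fun i : {i // gr i = l} => w i) (Reg (-(2 * a l * γ l * (k * D)))
        (2 * b l * γ l * (k * D)) (4 * (k ^ 2 : ℕ) * γ l * a l)
        (4 * (k ^ 2 : ℕ) * γ l * b l)) := by
      have h1 := hPS l (fun i : {i // gr i = l} => w i) (√N * x l / (2 * k) * D)
        (by positivity) (by
          rw [← hNdef]
          have e : √N * (√N * x l / (2 * k) * D) = √N ^ 2 * x l * D / (2 * k) := by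
            field_simp
          rw [e, hsN2, div_lt_iff₀ (by positivity)]
          linarith) (-(2 * a l * γ l * (k * D)))
      have e1 : 4 * ((k ^ 2 : ℕ) : ℝ) * γ l * a l = N * x l ^ 2 * a l := by
        rw [hγ, ← hNdef]; push_cast; field_simp; ring
      have e2 : 4 * ((k ^ 2 : ℕ) : ℝ) * γ l * b l = N * x l ^ 2 * b l := by
        rw [hγ, ← hNdef]; push_cast; field_simp; ring
      have e3 : √(N * x l ^ 2 * a l + N * x l ^ 2 * b l) = √N * x l := by
        have : N * x l ^ 2 * a l + N * x l ^ 2 * b l = N * x l ^ 2 := by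
          rw [← mul_add, hab l, mul_one]
        rw [this, Real.sqrt_mul (by rw [hNdef]; exact hN.le), Real.sqrt_sq hxl.le]
      have e4 : -(2 * a l * γ l * (k * D)) + √N * x l / (2 * k) * D * (√N * x l) =
          2 * b l * γ l * (k * D) := by
        have h5 : √N * x l / (2 * k) * D * (√N * x l) = √N ^ 2 * x l ^ 2 * D / (2 * k) := by
          field_simp
        have h6 : 2 * γ l * (k * D) = N * x l ^ 2 * D / (2 * k) := by
          rw [hγ, ← hNdef]; field_simp
        have h7 : 2 * γ l * (k * D) = 2 * a l * γ l * (k * D) + 2 * b l * γ l * (k * D) := by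
          have : a l + b l = 1 := hab l
          linear_combination (-(2 * γ l * (k * D))) * this
        rw [h5, hsN2, ← h6, h7]
        ring
      rw [← hNdef, e3, e4] at h1
      rw [e1, e2]
      exact h1
    have hxy : AlgebraicIndependent ℚ (fun q : {i // gr i = l} × Fin 2 =>
        ![(fun i : {i // gr i = l} => z (i.1, 0)) q.1,
          (fun i : {i // gr i = l} => z (i.1, 1)) q.1] q.2) := by
      have e : (fun q : {i // gr i = l} × Fin 2 => (![(fun i : {i // gr i = l} => z (i.1, 0)) q.1,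
          (fun i : {i // gr i = l} => z (i.1, 1)) q.1] : Fin 2 → ℂ) q.2) =
          z ∘ fun q : {i // gr i = l} × Fin 2 => (q.1.1, q.2) := by
        funext q
        obtain ⟨i, j⟩ := q
        fin_cases j <;> rfl
      rw [e]
      apply hz.comp
      rintro ⟨i, j⟩ ⟨i', j'⟩ h
      simp only [Prod.mk.injEq] at h
      exact Prod.ext (Subtype.ext h.1) h.2
    have hal := ha l
    have hbl := hb l
    have hgl := hγ0 l
    refine Emp_generic' (Reg_finite (by positivity) (by positivity) (by positivity)) hemp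
      (fun i => hzx i.1) (fun i => hzy i.1) hxy f (hf.trans ?_) (fun i => hLM i.1 i.2)
    have := Reg_mono_scale (a := a l) (b := b l) (γ := γ l) (e := ((k * d : ℕ) : ℝ))
      (t := ((k ^ 2 : ℕ) : ℝ)) (E := k * D) (by push_cast; exact mul_le_mul_of_nonneg_left hD1.le hk'.le)
      hal.le hbl.le hgl.le
    exact this
  have hmain := Emp_multi (F := ℂ) hr0 (gr := gr) (w := w) (δ := k ^ 2) (e := k * d) hr ha hb hab
    (fun l => (hγ0 l).le) hγ1 (x := fun i => z (i, 0)) (y := fun i => z (i, 1)) hzx hzy hz1 hE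
  apply P2.Emp_cusp hk
  refine hmain.mono ?_
  rintro ⟨i, j⟩ ⟨h1, h2, h3⟩
  refine ⟨h1, h2, ?_⟩
  push_cast
  exact h3

end Pool.Agent.TH146.MN
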