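import Pool.Agent.TH146.MN.Shapes
import Pool.Agent.TH146.MN.NF

/-! Nef classes with few distinct weights. -/

set_option autoImplicit false
set_option linter.unusedSectionVars false

namespace Pool.Agent.TH146.MN

open Pool.Agent.TH176.Nag Pool.Agent.TH181.Nag

/-- the shapes of the triangle of a group of weight `x`, by the flattening `(u, v)` -/
theorem PS_uv {ι : Type} [Fintype ι] {x : ℝ} (hx0 : 0 < x) (hn : 0 < Fintype.card ι) {u : ℕ}
    {v : ℤ} (hu : 1 ≤ u) (hc : IsCoprime (u : ℤ) v) (hux : u * x ≤ 1)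
    (h1 : (Fintype.card ι : ℝ) * x * (1 - u * x) < v) (h2 : (v : ℝ) < (Fintype.card ι : ℝ) * x) :
    ∃ a b : ℝ, 0 < a ∧ 0 < b ∧ a + b = 1 ∧ PS (√(Fintype.card ι)) ι
      ((Fintype.card ι : ℝ) * x ^ 2 * a) ((Fintype.card ι : ℝ) * x ^ 2 * b) := by
  have hn' : (0 : ℝ) < Fintype.card ι := by exact_mod_cast hn
  have hu' : (0 : ℝ) < u := by exact_mod_cast hu
  have hk : 0 < (u : ℝ) * ((Fintype.card ι : ℝ) * x ^ 2) := by positivity
  refine ⟨((Fintype.card ι : ℝ) * x - v) / (u * ((Fintype.card ι : ℝ) * x ^ 2)),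
    (v - (Fintype.card ι : ℝ) * x * (1 - u * x)) / (u * ((Fintype.card ι : ℝ) * x ^ 2)),
    ?_, ?_, ?_, ?_⟩
  · exact div_pos (by linarith) hk
  · exact div_pos (by linarith) hk
  · rw [← add_div, div_eq_one_iff_eq hk.ne']
    ring
  · have f1 : (Fintype.card ι : ℝ) * x ^ 2 * (((Fintype.card ι : ℝ) * x - v) /
        (u * ((Fintype.card ι : ℝ) * x ^ 2))) = ((Fintype.card ι : ℝ) * x - v) / u := by
      field_simp
    have f2 : (Fintype.card ι : ℝ) * x ^ 2 * ((v - (Fintype.card ι : ℝ) * x * (1 - u * x)) /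
        (u * ((Fintype.card ι : ℝ) * x ^ 2))) =
        (v - (Fintype.card ι : ℝ) * x * (1 - u * x)) / u := by
      field_simp
    rw [f1, f2]
    have e0 : ((Fintype.card ι : ℝ) * x - v) / u +
        (v - (Fintype.card ι : ℝ) * x * (1 - u * x)) / u = (Fintype.card ι : ℝ) * x ^ 2 := by
      field_simp
      ring
    have e3 : (u : ℝ) * (((Fintype.card ι : ℝ) * x - v) / u) + v = (Fintype.card ι : ℝ) * x := by
      field_simp
      ring
    have e4 : (u : ℝ) * ((v - (Fintype.card ι : ℝ) * x * (1 - u * x)) / u) =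
        v - (Fintype.card ι : ℝ) * x * (1 - u * x) := by
      field_simp
    have h3 : 0 ≤ (Fintype.card ι : ℝ) * x * (1 - u * x) :=
      mul_nonneg (by positivity) (by linarith)
    refine PS.stepA (u : ℤ) v hc (by positivity) ?_ ?_ ?_ ?_
    · push_cast
      rw [e3]
      positivity
    · push_cast
      rw [e4]
      linarith
    · rw [e0]; positivity
    · rw [e0]
      have e1 : (((u : ℕ) : ℤ) : ℝ) * ((((u : ℕ) : ℤ) : ℝ) * (((Fintype.card ι : ℝ) * x - v) / u) + v) =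
          u * ((Fintype.card ι : ℝ) * x) := by
        push_cast
        rw [e3]
      have e2 : ((v : ℝ) - (((u : ℕ) : ℤ) : ℝ) * ((v - (Fintype.card ι : ℝ) * x * (1 - u * x)) / u)) *
          ((((u : ℕ) : ℤ) : ℝ) * (((Fintype.card ι : ℝ) * x - v) / u) + v) /
          ((Fintype.card ι : ℝ) * x ^ 2) = (Fintype.card ι : ℝ) * (1 - u * x) := by
        push_cast
        rw [e3, e4]
        field_simp
        ring
      rw [e1, e2]
      apply PS.final
      · positivity
      · exact mul_nonneg hn'.le (by linarith)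
      · ring

/-- a group of `n` points of weight `x ≤ 1` is good if `x = 1` or `n x > 1` -/
theorem PS_weight2 {ι : Type} [Fintype ι] {x : ℝ} (hx0 : 0 < x) (hx1 : x ≤ 1)
    (hn : 0 < Fintype.card ι) (h : x = 1 ∨ 1 < (Fintype.card ι : ℝ) * x) :
    ∃ a b : ℝ, 0 < a ∧ 0 < b ∧ a + b = 1 ∧ PS (√(Fintype.card ι)) ι
      ((Fintype.card ι : ℝ) * x ^ 2 * a) ((Fintype.card ι : ℝ) * x ^ 2 * b) := by
  have hn' : (0 : ℝ) < Fintype.card ι := by exact_mod_cast hn
  rcases h with h | h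
  · exact PS_weight hx0 hx1 hn (Or.inl h)
  · rcases lt_or_ge 1 ((Fintype.card ι : ℝ) * x ^ 2) with h1 | h1
    · refine PS_uv (u := 1) (v := ⌈(Fintype.card ι : ℝ) * x⌉ - 1) hx0 hn le_rfl
        (by simpa using isCoprime_one_left) (by simpa using hx1) ?_ ?_
      · push_cast
        have := Int.le_ceil ((Fintype.card ι : ℝ) * x)
        nlinarith
      · push_cast
        have := Int.ceil_lt_add_one ((Fintype.card ι : ℝ) * x)
        linarith
    · have h2 : 1 ≤ 1 / x := by rw [le_div_iff₀ hx0]; linarith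
      refine PS_uv (u := ⌊1 / x⌋₊) (v := 1) hx0 hn ?_ isCoprime_one_right ?_ ?_ ?_
      · exact Nat.le_floor (by simpa using h2)
      · have h3 := Nat.floor_le (show 0 ≤ 1 / x by positivity)
        calc (⌊1 / x⌋₊ : ℝ) * x ≤ 1 / x * x := mul_le_mul_of_nonneg_right h3 hx0.le
          _ = 1 := by field_simp
      · have h3 := Nat.lt_floor_add_one (1 / x)
        have h4 : 1 - (⌊1 / x⌋₊ : ℝ) * x < x := by
          have h5 : 1 / x * x < ((⌊1 / x⌋₊ : ℝ) + 1) * x := mul_lt_mul_of_pos_right h3 hx0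
          have h6 : 1 / x * x = 1 := by field_simp
          linarith
        push_cast
        have h7 : 0 < (Fintype.card ι : ℝ) * x := by positivity
        nlinarith
      · push_cast; exact h

/-- the right triangle of the groups -/
theorem star_R {ι : Type} [Fintype ι] {r : ℕ} (hr0 : 0 < r) (gr : ι → Fin r)
    (hgr : Function.Surjective gr) (x : Fin r → ℝ) (hx0 : ∀ l, 0 < x l) (hx1 : ∀ l, x l ≤ 1)
    {m : ℝ} (hm : 0 < m) (hr : 4 * (r : ℝ) + 2 ≤ m ^ 2)
    (hsq : ∑ l, (Fintype.card {i // gr i = l} : ℝ) * x l ^ 2 = m ^ 2)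
    (hgap : ∀ l, x l = 1 ∨ 1 < (Fintype.card {i // gr i = l} : ℝ) * x l)
    (w : ι → ℕ) {E : ℝ} (hE : 0 < E)
    (hw : ∀ l, (Fintype.card {i // gr i = l} : ℝ) * x l * E <
      m * ∑ i : {i // gr i = l}, (w i : ℝ)) :
    TS w E 0 (m ^ 2 / 4) := by
  classical
  have hcard : ∀ l, 0 < Fintype.card {i // gr i = l} := fun l => by
    obtain ⟨i, hi⟩ := hgr l
    exact Fintype.card_pos_iff.2 ⟨⟨i, hi⟩⟩
  have hcard' : ∀ l, (0 : ℝ) < Fintype.card {i // gr i = l} := fun l => by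
    exact_mod_cast hcard l
  choose a b ha hb hab hPS using fun l => PS_weight2 (hx0 l) (hx1 l) (hcard l) (hgap l)
  obtain ⟨γ, hγ⟩ : ∃ γ : Fin r → ℝ, ∀ l, γ l =
      (Fintype.card {i // gr i = l} : ℝ) * x l ^ 2 / m ^ 2 := ⟨_, fun _ => rfl⟩
  have hγ0 : ∀ l, 0 < γ l := fun l => by
    rw [hγ]
    have h1 := hcard' l
    have h2 := hx0 l
    positivity
  have hγ1 : ∑ l, γ l = 1 := by
    simp only [hγ]
    rw [← Finset.sum_div, hsq]
    exact div_self (by positivity)
  have hsm : √(m ^ 2 / 4) = m / 2 := by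
    rw [show m ^ 2 / 4 = (m / 2) ^ 2 by ring]
    exact Real.sqrt_sq (by positivity)
  refine TS.of_weighted (e := E * (m / 2)) (by positivity) (by rw [hsm]) ?_
  refine Emp_groups hr0 gr (by linarith) (by positivity) ha hb hab hγ0 hγ1 ?_
  intro l
  have hN := hcard' l
  have hxl := hx0 l
  obtain ⟨N, hNdef⟩ : ∃ N : ℝ, N = (Fintype.card {i // gr i = l} : ℝ) := ⟨_, rfl⟩
  have hN0 : 0 < N := by rw [hNdef]; exact hN
  have hsN : 0 < √N := Real.sqrt_pos.2 hN0
  have hsN2 : √N ^ 2 = N := Real.sq_sqrt hN0.le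
  have h1 := hPS l (fun i : {i // gr i = l} => w i) (√N * x l / m * E)
    (by positivity) (by
      rw [← hNdef]
      have e : √N * (√N * x l / m * E) = √N ^ 2 * x l * E / m := by
        field_simp
      rw [e, hsN2, div_lt_iff₀ hm]
      have := hw l
      rw [← hNdef] at this
      linarith) (-(2 * a l * γ l * (E * (m / 2))))
  have e1 : 4 * (m ^ 2 / 4) * γ l * a l = N * x l ^ 2 * a l := by
    rw [hγ, ← hNdef]; field_simp
  have e2 : 4 * (m ^ 2 / 4) * γ l * b l = N * x l ^ 2 * b l := by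
    rw [hγ, ← hNdef]; field_simp
  have e3 : √(N * x l ^ 2 * a l + N * x l ^ 2 * b l) = √N * x l := by
    have : N * x l ^ 2 * a l + N * x l ^ 2 * b l = N * x l ^ 2 := by
      rw [← mul_add, hab l, mul_one]
    rw [this, Real.sqrt_mul hN0.le, Real.sqrt_sq hxl.le]
  have e4 : -(2 * a l * γ l * (E * (m / 2))) + √N * x l / m * E * (√N * x l) =
      2 * b l * γ l * (E * (m / 2)) := by
    have h5 : √N * x l / m * E * (√N * x l) = √N ^ 2 * x l ^ 2 * E / m := by
      field_simp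
    have h6 : 2 * γ l * (E * (m / 2)) = N * x l ^ 2 * E / m := by
      rw [hγ, ← hNdef]; field_simp
    have h7 : 2 * γ l * (E * (m / 2)) =
        2 * a l * γ l * (E * (m / 2)) + 2 * b l * γ l * (E * (m / 2)) := by
      have : a l + b l = 1 := hab l
      linear_combination (-(2 * γ l * (E * (m / 2)))) * this
    rw [h5, hsN2, ← h6, h7]
    ring
  rw [← hNdef, e3, e4] at h1
  rw [e1, e2]
  exact h1

/-- the plane from the right triangle -/
theorem reach {ι : Type} [Finite ι] {w : ι → ℕ} {E : ℝ} (hE : 0 ≤ E) {m : ℝ}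
    (hm : m = 4 ∨ m = 5 ∨ m = 6 ∨ m = 7 ∨ 8 ≤ m) (h : TS w E 0 (m ^ 2 / 4)) : TS w E 0 1 := by
  have h4 : TS w E 0 4 → TS w E 0 1 := fun h => by
    apply TS.mul 2 (by norm_num) (by norm_num)
    norm_num
    exact h
  rcases hm with rfl | rfl | rfl | rfl | hm
  · apply h4
    norm_num at h
    exact h
  · apply h4
    apply TS.move (n := 4) (by norm_num) 1 1 isCoprime_one_left (by norm_num)
    norm_num at h ⊢
    exact h
  · apply TS.mul 3 (by norm_num) (by norm_num)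
    norm_num at h ⊢
    exact h
  · apply h4
    apply TS.move (n := 4) (by norm_num) 1 3 isCoprime_one_left (by norm_num)
    norm_num at h ⊢
    exact h
  · apply h4
    apply TS.squeeze hE (m := 2 * m) (by norm_num) (by linarith)
    have e : (2 * m) ^ 2 / (4 * 4) = m ^ 2 / 4 := by ring
    rw [e]
    exact h

/-- emptiness in the plane when the multiplicities of every group are large -/
theorem star2 {ι : Type} [Fintype ι] {r : ℕ} (hr0 : 0 < r) (gr : ι → Fin r)
    (hgr : Function.Surjective gr) (x : Fin r → ℝ) (hx0 : ∀ l, 0 < x l) (hx1 : ∀ l, x l ≤ 1)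
    {m : ℝ} (hm : m = 4 ∨ m = 5 ∨ m = 6 ∨ m = 7 ∨ 8 ≤ m) (hr : 4 * (r : ℝ) + 2 ≤ m ^ 2)
    (hsq : ∑ l, (Fintype.card {i // gr i = l} : ℝ) * x l ^ 2 = m ^ 2)
    (hgap : ∀ l, x l = 1 ∨ 1 < (Fintype.card {i // gr i = l} : ℝ) * x l)
    (w : ι → ℕ) (d : ℕ)
    (hw : ∀ l, (Fintype.card {i // gr i = l} : ℝ) * x l * d <
      m * ∑ i : {i // gr i = l}, (w i : ℝ)) :
    Emp w {q : ℤ × ℤ | 0 ≤ q.1 ∧ 0 ≤ q.2 ∧ q.1 + q.2 ≤ (d : ℤ)} := by
  classical
  have hm0 : 0 < m := by
    rcases hm with rfl | rfl | rfl | rfl | hm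
    · norm_num
    · norm_num
    · norm_num
    · norm_num
    · linarith
  have hd0 : (0 : ℝ) ≤ d := Nat.cast_nonneg d
  have hNx : ∀ l, 0 < (Fintype.card {i // gr i = l} : ℝ) * x l := fun l => by
    obtain ⟨i, hi⟩ := hgr l
    have h1 : 0 < Fintype.card {i // gr i = l} := Fintype.card_pos_iff.2 ⟨⟨i, hi⟩⟩
    have h2 : (0 : ℝ) < Fintype.card {i // gr i = l} := by exact_mod_cast h1
    have := hx0 l
    positivity
  have hE : ∀ l, ∃ E : ℝ, (d : ℝ) < E ∧ (Fintype.card {i // gr i = l} : ℝ) * x l * E <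
      m * ∑ i : {i // gr i = l}, (w i : ℝ) := by
    intro l
    have h2 : (d : ℝ) < (m * ∑ i : {i // gr i = l}, (w i : ℝ)) /
        ((Fintype.card {i // gr i = l} : ℝ) * x l) := by
      rw [lt_div_iff₀ (hNx l)]; have := hw l; linarith
    obtain ⟨E, h3, h4⟩ := exists_between h2
    refine ⟨E, h3, ?_⟩
    rw [lt_div_iff₀ (hNx l)] at h4
    linarith
  choose El hEl1 hEl2 using hE
  have : Nonempty (Fin r) := ⟨⟨0, hr0⟩⟩
  obtain ⟨l0, -, hl0⟩ := Finset.exists_min_image (Finset.univ : Finset (Fin r)) El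
    Finset.univ_nonempty
  have hE0 : 0 < El l0 := lt_of_le_of_lt hd0 (hEl1 l0)
  have h1 := reach hE0.le hm (star_R hr0 gr hgr x hx0 hx1 hm0 hr hsq hgap w hE0 (fun l =>
    lt_of_le_of_lt (mul_le_mul_of_nonneg_left (hl0 l (Finset.mem_univ l)) (hNx l).le) (hEl2 l))) 0
  refine h1.mono ?_
  rintro ⟨i, j⟩ ⟨h2, h3, h4⟩
  simp only at h2 h3 h4
  have h5 : (i : ℝ) + j ≤ d := by exact_mod_cast h4
  have h6 := hEl1 l0
  refine ⟨h3, ?_, ?_⟩
  · simp only
    have : (0 : ℝ) ≤ i := by exact_mod_cast h2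
    linarith
  · simp only
    rw [zero_add (1 : ℝ), Real.sqrt_one]
    linarith

/-- the class with the weights `x` on the groups and degree `m` is nef -/
theorem nf_groups {n r : ℕ} (hr0 : 0 < r) (gr : Fin n → Fin r)
    (hgr : Function.Surjective gr) (x : Fin r → ℝ) (hx0 : ∀ l, 0 < x l) (hx1 : ∀ l, x l ≤ 1)
    {m : ℝ} (hm : m = 4 ∨ m = 5 ∨ m = 6 ∨ m = 7 ∨ 8 ≤ m) (hr : 4 * (r : ℝ) + 2 ≤ m ^ 2)
    (hsq : ∑ i, x (gr i) ^ 2 = m ^ 2)
    (hgap : ∀ l, x l = 1 ∨ 1 < (Fintype.card {i // gr i = l} : ℝ) * x l) :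
    Pool.Agent.H350R3.NB.Nf ℂ (fun i => x (gr i)) m := by
  classical
  have hm0 : 0 < m := by
    rcases hm with rfl | rfl | rfl | rfl | hm
    · norm_num
    · norm_num
    · norm_num
    · norm_num
    · linarith
  refine NF.nf_of_star (fun i => x (gr i)) (fun i => hx0 _) hm0 hsq fun w d hw => ?_
  have hsum : ∀ f : Fin n → ℝ, ∀ l, ∑ i : {i // gr i = l}, f i = ∑ i with gr i = l, f i := by
    intro f l
    exact (Finset.sum_subtype (Finset.univ.filter fun i => gr i = l) (fun i => by simp) f).symm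
  refine star2 hr0 gr hgr x hx0 hx1 hm hr ?_ hgap w d fun l => ?_
  · rw [← hsq, ← Finset.sum_fiberwise Finset.univ gr]
    refine Finset.sum_congr rfl fun l _ => ?_
    have h1 : ∑ i with gr i = l, x (gr i) ^ 2 = ∑ i : {i // gr i = l}, x l ^ 2 := by
      rw [← hsum (fun i => x (gr i) ^ 2) l]
      exact Finset.sum_congr rfl fun i _ => by rw [i.2]
    rw [h1, Finset.sum_const, Finset.card_univ, nsmul_eq_mul]
  · obtain ⟨i0, hi0⟩ := hgr l
    rw [Finset.mul_sum]
    have h1 : (Fintype.card {i // gr i = l} : ℝ) * x l * d =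
        ∑ _i : {i // gr i = l}, x l * d := by
      rw [Finset.sum_const, Finset.card_univ, nsmul_eq_mul]; ring
    rw [h1]
    refine Finset.sum_lt_sum_of_nonempty ⟨⟨i0, hi0⟩, Finset.mem_univ _⟩ fun i _ => ?_
    have := hw i
    rwa [i.2] at this

end Pool.Agent.TH146.MN
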