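import Pool.Agent.TH793.NG.Dec

/-! Tubes around the nodes of the curve `y ^ 2 = (1 + x) ∏ ((x - c l) ^ 2 - 4 t)`. -/

set_option autoImplicit false
set_option linter.unusedSectionVars false

namespace Pool.Agent.TH146.MN

open Pool.Agent.TH603.EL Pool.Agent.TH603.EL.Scal2 Pool.Agent.TH793.NG

section gen
variable {F : Type} [Field F]

/-- constants -/
noncomputable def cst : F →+* HR F := incl.comp (HahnSeries.C : F →+* HK F)

theorem low_C (u : F) : Low (HahnSeries.C u : HK F) 0 := by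
  intro n hn
  rw [HahnSeries.C_apply, HahnSeries.coeff_single_of_ne hn.ne]

theorem low_cst (u : F) : Low (cst u) 0 := (low_C u).incl

theorem Mc_cst {a b s : ℝ} (u : F) : Mc a b s 0 (cst u) := Mc.incl (low_C u)

theorem Ep_cst {a : ℝ} (ha : 0 < a) (u : F) : Ep a 0 (cst u) = PowerSeries.C u := by
  unfold cst
  rw [RingHom.comp_apply, Ep_incl ha]
  simp

theorem Em_cst {b : ℝ} (hb : 0 < b) (u : F) : Em b 0 (cst u) = PowerSeries.C u := by
  unfold cst
  rw [RingHom.comp_apply, Em_incl hb]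
  simp

/-- equal to a constant up to order `c` -/
def Near (c : ℝ) (x : HR F) (v : F) : Prop := Low (x - cst v) c

variable {c : ℝ} {x y : HR F} {v u : F}

theorem near_cst (v : F) : Near c (cst v) v := by
  unfold Near
  rw [sub_self]
  exact low_zero c

theorem Near.add (hx : Near c x v) (hy : Near c y u) : Near c (x + y) (v + u) := by
  unfold Near at *
  have e : x + y - cst (v + u) = (x - cst v) + (y - cst u) := by rw [map_add]; ring
  rw [e]; exact Low.add hx hy

theorem Near.add_low (hx : Near c x v) (hy : Low y c) : Near c (x + y) v := by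
  unfold Near at *
  have e : x + y - cst v = (x - cst v) + y := by ring
  rw [e]; exact Low.add hx hy

theorem Near.neg (hx : Near c x v) : Near c (-x) (-v) := by
  unfold Near at *
  have e : -x - cst (-v) = -(x - cst v) := by rw [map_neg]; ring
  rw [e]; exact Low.neg hx

theorem Near.sub (hx : Near c x v) (hy : Near c y u) : Near c (x - y) (v - u) := by
  rw [sub_eq_add_neg, sub_eq_add_neg]; exact hx.add hy.neg

theorem Near.mul (hc : 0 ≤ c) (hx : Near c x v) (hy : Near c y u) : Near c (x * y) (v * u) := by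
  unfold Near at *
  have e : x * y - cst (v * u) = (x - cst v) * (y - cst u) + (cst v * (y - cst u) +
      cst u * (x - cst v)) := by rw [map_mul]; ring
  rw [e]
  refine Low.add ((Low.mul hx hy).mono (by linarith)) (Low.add ?_ ?_)
  · have := Low.mul (low_cst v) hy; rwa [zero_add] at this
  · have := Low.mul (low_cst u) hx; rwa [zero_add] at this

theorem Near.pow (hc : 0 ≤ c) (hx : Near c x v) (n : ℕ) : Near c (x ^ n) (v ^ n) := by
  induction n with
  | zero => simpa using near_cst (c := c) (1 : F)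
  | succ n ih => rw [pow_succ, pow_succ]; exact ih.mul hc hx

theorem Near.prod (hc : 0 ≤ c) {κ : Type*} (t : Finset κ) (f : κ → HR F) (g : κ → F)
    (h : ∀ k ∈ t, Near c (f k) (g k)) : Near c (∏ k ∈ t, f k) (∏ k ∈ t, g k) := by
  classical
  induction t using Finset.induction_on with
  | empty => simpa using near_cst (c := c) (1 : F)
  | insert k t hk ih =>
    rw [Finset.prod_insert hk, Finset.prod_insert hk]
    exact (h k (Finset.mem_insert_self _ _)).mul hc
      (ih fun j hj => h j (Finset.mem_insert_of_mem hj))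

theorem Near.low (hc : 0 ≤ c) (hx : Near c x v) : Low x 0 := by
  have e : x = (x - cst v) + cst v := by ring
  rw [e]
  exact ((show Low (x - cst v) c from hx).mono hc).add (low_cst v)

theorem Near.coeff (hc : 0 < c) (hx : Near c x v) : x.coeff 0 = algebraMap F (Lau F) v := by
  have e : x = (x - cst v) + cst v := by ring
  have h1 : (x - cst v).coeff 0 = 0 := hx 0 hc
  rw [e, HahnSeries.coeff_add, h1, zero_add]
  ext m
  obtain ⟨i, j⟩ := m
  have h2 := cf_incl (HahnSeries.C v : HK F) 0 i j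
  have h3 : ((cst v : HR F).coeff 0).coeff (i, j) = cf (incl (HahnSeries.C v : HK F)) 0 i j := rfl
  rw [h3, h2]
  rw [AddMonoidAlgebra.coe_algebraMap]
  simp only [Function.comp_apply, AddMonoidAlgebra.coeff_single, Finsupp.single_apply]
  by_cases h : (i = 0 ∧ j = 0)
  · obtain ⟨rfl, rfl⟩ := h
    rw [if_pos ⟨rfl, rfl⟩, if_pos (show (0 : ℤ × ℤ) = (0, 0) from rfl)]
    simp [HahnSeries.C_apply]
  · rw [if_neg h, if_neg]
    intro h4
    apply h
    rw [Prod.ext_iff] at h4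
    exact ⟨h4.1.symm, h4.2.symm⟩

theorem Mc.prod {a b s : ℝ} {κ : Type*} (t : Finset κ) (f : κ → HR F)
    (h : ∀ k ∈ t, Mc a b s 0 (f k)) : Mc a b s 0 (∏ k ∈ t, f k) := by
  classical
  induction t using Finset.induction_on with
  | empty => simpa using Mc.one
  | insert k t hk ih =>
    rw [Finset.prod_insert hk]
    have := (h k (Finset.mem_insert_self _ _)).mul
      (ih fun j hj => h j (Finset.mem_insert_of_mem hj))
    rwa [add_zero] at this

theorem Ep_prod {a b s : ℝ} (ha : 0 < a) (hb : 0 < b) (hs : 0 < s) {κ : Type*} (t : Finset κ)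
    (f : κ → HR F) (h : ∀ k ∈ t, Mc a b s 0 (f k)) :
    Ep a 0 (∏ k ∈ t, f k) = ∏ k ∈ t, Ep a 0 (f k) := by
  classical
  induction t using Finset.induction_on with
  | empty => simpa using Ep_one ha
  | insert k t hk ih =>
    rw [Finset.prod_insert hk, Finset.prod_insert hk,
      ← ih fun j hj => h j (Finset.mem_insert_of_mem hj)]
    have := Ep_mul ha hb hs (h k (Finset.mem_insert_self _ _))
      (Mc.prod t f fun j hj => h j (Finset.mem_insert_of_mem hj))
    rwa [add_zero] at this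

theorem Em_prod {a b s : ℝ} (ha : 0 < a) (hb : 0 < b) (hs : 0 < s) {κ : Type*} (t : Finset κ)
    (f : κ → HR F) (h : ∀ k ∈ t, Mc a b s 0 (f k)) :
    Em b 0 (∏ k ∈ t, f k) = ∏ k ∈ t, Em b 0 (f k) := by
  classical
  induction t using Finset.induction_on with
  | empty => simpa using Em_one hb
  | insert k t hk ih =>
    rw [Finset.prod_insert hk, Finset.prod_insert hk,
      ← ih fun j hj => h j (Finset.mem_insert_of_mem hj)]
    have := Em_mul ha hb hs (h k (Finset.mem_insert_self _ _))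
      (Mc.prod t f fun j hj => h j (Finset.mem_insert_of_mem hj))
    rwa [add_zero] at this

theorem Ep_mul0 {a b s : ℝ} (ha : 0 < a) (hb : 0 < b) (hs : 0 < s) (hx : Mc a b s 0 x)
    (hy : Mc a b s 0 y) : Ep a 0 (x * y) = Ep a 0 x * Ep a 0 y := by
  have := Ep_mul ha hb hs hx hy
  rwa [add_zero] at this

theorem Em_mul0 {a b s : ℝ} (ha : 0 < a) (hb : 0 < b) (hs : 0 < s) (hx : Mc a b s 0 x)
    (hy : Mc a b s 0 y) : Em b 0 (x * y) = Em b 0 x * Em b 0 y := by
  have := Em_mul ha hb hs hx hy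
  rwa [add_zero] at this

theorem mcmul {a b s : ℝ} (hx : Mc a b s 0 x) (hy : Mc a b s 0 y) : Mc a b s 0 (x * y) := by
  have := Mc.mul hx hy
  rwa [add_zero] at this

end gen

section coord
variable {F : Type} [Field F] {κ : Type} [Fintype κ] [DecidableEq κ]

/-- the coordinate `x` on the tube at the node `c l` -/
noncomputable def xk (c : κ → F) (l : κ) (a b s : ℝ) : HR F := cst (c l) + xx F a b s

/-- four times `t` -/
noncomputable def ft (F : Type) [Field F] : HK F := 4 * HahnSeries.single (1 : ℝ) (1 : F)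

theorem coeff_ft : (ft F).coeff 0 = 0 := by
  unfold ft
  have h4 : (4 : HK F) = HahnSeries.C (4 : F) := (map_ofNat HahnSeries.C 4).symm
  rw [h4, HahnSeries.C_mul_eq_smul, HahnSeries.coeff_smul]
  rw [HahnSeries.coeff_single_of_ne (by norm_num)]
  simp

theorem low_ft : Low (ft F) 1 := by
  intro n hn
  unfold ft
  have h4 : (4 : HK F) = HahnSeries.C (4 : F) := (map_ofNat HahnSeries.C 4).symm
  rw [h4, HahnSeries.C_mul_eq_smul, HahnSeries.coeff_smul]
  rw [HahnSeries.coeff_single_of_ne hn.ne]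
  simp

theorem incl_ft : incl (ft F) = 4 * tz F 1 0 0 := by
  unfold ft
  rw [map_mul, incl_t]
  congr 1
  exact map_ofNat incl 4

/-- the product over the other nodes -/
noncomputable def Rk (c : κ → F) (l : κ) (a b s : ℝ) : HR F :=
  ∏ j ∈ Finset.univ.erase l, ((xk c l a b s - cst (c j)) ^ 2 - incl (ft F))

/-- the constant of the tube -/
def wk (ε c : κ → F) (l : κ) : F := ε l * ∏ j ∈ Finset.univ.erase l, (c l - c j)

theorem wk_ne {ε c : κ → F} (hε : ∀ l, ε l ≠ 0) (hc : Function.Injective c) (l : κ) :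
    wk ε c l ≠ 0 := by
  unfold wk
  refine mul_ne_zero (hε l) (Finset.prod_ne_zero_iff.2 fun j hj => ?_)
  rw [sub_ne_zero]
  intro h
  exact (Finset.mem_erase.1 hj).1 (hc h).symm

/-- the unit whose square root is taken -/
noncomputable def Uk (ε c : κ → F) (l : κ) (a b s : ℝ) : HR F :=
  (1 + xk c l a b s) * Rk c l a b s * cst ((wk ε c l)⁻¹ ^ 2) - 1

variable [CharZero F]

/-- the coordinate `y` on the tube at the node `c l` -/
noncomputable def yk (ε c : κ → F) (l : κ) (a b s : ℝ) : HR F :=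
  cst (wk ε c l) * rt (Uk ε c l a b s) * (pQ F b s - pP F a)

variable {ε c : κ → F} {l : κ} {a b s : ℝ}

theorem near_xk (ha : 0 < a) (hb : 0 < b) (hs : 0 < s) :
    Near (min a b) (xk c l a b s) (c l) :=
  (near_cst (c l)).add_low (low_xx F ha hb hs)

theorem near_Rk (ha : 0 < a) (hb : 0 < b) (hs : 0 < s) (hab : a + b = 1) :
    Near (min a b) (Rk c l a b s) (∏ j ∈ Finset.univ.erase l, (c l - c j) ^ 2) := by
  have h0 : 0 ≤ min a b := (lt_min ha hb).le
  refine Near.prod h0 _ _ _ fun j _ => ?_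
  rw [sub_eq_add_neg]
  refine Near.add_low (((near_xk ha hb hs).sub (near_cst (c j))).pow h0 2) ?_
  exact ((low_ft.mono (by rw [min_le_iff]; left; linarith)).incl).neg

theorem near_V (ha : 0 < a) (hb : 0 < b) (hs : 0 < s) (hab : a + b = 1)
    (hε2 : ∀ l, ε l ^ 2 = 1 + c l) :
    Near (min a b) ((1 + xk c l a b s) * Rk c l a b s) (wk ε c l ^ 2) := by
  have h0 : 0 ≤ min a b := (lt_min ha hb).le
  have h1 : Near (min a b) (1 + xk c l a b s) (1 + c l) := by
    have := (near_cst (c := min a b) (1 : F)).add (near_xk (c := c) (l := l) ha hb hs)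
    rwa [map_one] at this
  have h2 := h1.mul h0 (near_Rk (c := c) (l := l) ha hb hs hab)
  have e : (1 + c l) * ∏ j ∈ Finset.univ.erase l, (c l - c j) ^ 2 = wk ε c l ^ 2 := by
    unfold wk
    rw [mul_pow, hε2, Finset.prod_pow]
  rwa [e] at h2

theorem low_Uk (ha : 0 < a) (hb : 0 < b) (hs : 0 < s) (hab : a + b = 1)
    (hε2 : ∀ l, ε l ^ 2 = 1 + c l) (hw : wk ε c l ≠ 0) : Low (Uk ε c l a b s) (min a b) := by
  have h0 : 0 ≤ min a b := (lt_min ha hb).le
  have h1 := (near_V (c := c) (l := l) ha hb hs hab hε2).mul h0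
    (near_cst ((wk ε c l)⁻¹ ^ 2))
  have e : wk ε c l ^ 2 * (wk ε c l)⁻¹ ^ 2 = 1 := by
    rw [← mul_pow, mul_inv_cancel₀ hw, one_pow]
  rw [e] at h1
  unfold Near at h1
  rw [map_one] at h1
  exact h1

theorem Mc_xk (ha : 0 < a) (hb : 0 < b) (hs : 0 < s) : Mc a b s 0 (xk c l a b s) :=
  (Mc_cst (c l)).add (Mc_xx F ha hb hs)

theorem Mc_factor (ha : 0 < a) (hb : 0 < b) (hs : 0 < s) (j : κ) :
    Mc a b s 0 ((xk c l a b s - cst (c j)) ^ 2 - incl (ft F)) :=
  (((Mc_xk ha hb hs).sub (Mc_cst (c j))).pow 2).sub (Mc.incl (low_ft.mono (by norm_num)))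

theorem Mc_Rk (ha : 0 < a) (hb : 0 < b) (hs : 0 < s) : Mc a b s 0 (Rk c l a b s) :=
  Mc.prod _ _ fun j _ => Mc_factor ha hb hs j

theorem Mc_Uk (ha : 0 < a) (hb : 0 < b) (hs : 0 < s) : Mc a b s 0 (Uk ε c l a b s) :=
  (mcmul (mcmul (Mc.one.add (Mc_xk ha hb hs)) (Mc_Rk ha hb hs)) (Mc_cst _)).sub Mc.one

theorem ord_Uk (ha : 0 < a) (hb : 0 < b) (hs : 0 < s) (hab : a + b = 1)
    (hε2 : ∀ l, ε l ^ 2 = 1 + c l) (hw : wk ε c l ≠ 0) : 0 < (Uk ε c l a b s).orderTop :=
  orderTop_pos_of_low (lt_min ha hb) (low_Uk ha hb hs hab hε2 hw)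

theorem Mc_rtU (ha : 0 < a) (hb : 0 < b) (hs : 0 < s) (hab : a + b = 1)
    (hε2 : ∀ l, ε l ^ 2 = 1 + c l) (hw : wk ε c l ≠ 0) : Mc a b s 0 (rt (Uk ε c l a b s)) :=
  rt_wedge (ord_Uk ha hb hs hab hε2 hw) (Mc_Uk ha hb hs)

theorem Mc_yk (ha : 0 < a) (hb : 0 < b) (hs : 0 < s) (hab : a + b = 1)
    (hε2 : ∀ l, ε l ^ 2 = 1 + c l) (hw : wk ε c l ≠ 0) : Mc a b s 0 (yk ε c l a b s) :=
  mcmul (mcmul (Mc_cst _) (Mc_rtU ha hb hs hab hε2 hw)) ((Mc_Q F ha hb hs).sub (Mc_P F ha hb hs))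

/-- the square of the unit -/
theorem unit_sq (ha : 0 < a) (hb : 0 < b) (hs : 0 < s) (hab : a + b = 1)
    (hε2 : ∀ l, ε l ^ 2 = 1 + c l) (hw : wk ε c l ≠ 0) :
    (cst (wk ε c l) * rt (Uk ε c l a b s)) * (cst (wk ε c l) * rt (Uk ε c l a b s)) =
      (1 + xk c l a b s) * Rk c l a b s := by
  have h1 := rt_mul (ord_Uk (c := c) (l := l) ha hb hs hab hε2 hw)
  have h2 : cst (wk ε c l) * cst (wk ε c l) * cst ((wk ε c l)⁻¹ ^ 2) = (1 : HR F) := by
    rw [← map_mul, ← map_mul]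
    have : wk ε c l * wk ε c l * (wk ε c l)⁻¹ ^ 2 = 1 := by
      field_simp
    rw [this, map_one]
  have h3 : 1 + Uk ε c l a b s = (1 + xk c l a b s) * Rk c l a b s * cst ((wk ε c l)⁻¹ ^ 2) := by
    unfold Uk; ring
  calc (cst (wk ε c l) * rt (Uk ε c l a b s)) * (cst (wk ε c l) * rt (Uk ε c l a b s))
      = cst (wk ε c l) * cst (wk ε c l) * (rt (Uk ε c l a b s) * rt (Uk ε c l a b s)) := by ring
    _ = (cst (wk ε c l) * cst (wk ε c l) * cst ((wk ε c l)⁻¹ ^ 2)) *
        ((1 + xk c l a b s) * Rk c l a b s) := by rw [h1, h3]; ring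
    _ = _ := by rw [h2, one_mul]

/-- the equation of the curve on the tube -/
theorem curve_k (ha : 0 < a) (hb : 0 < b) (hs : 0 < s) (hab : a + b = 1)
    (hε2 : ∀ l, ε l ^ 2 = 1 + c l) (hw : wk ε c l ≠ 0) :
    yk ε c l a b s ^ 2 - (1 + xk c l a b s) *
      ∏ j, ((xk c l a b s - cst (c j)) ^ 2 - incl (ft F)) =
      -4 * ((1 + xk c l a b s) * Rk c l a b s) * tz F (1 + s) 0 1 := by
  have h1 := unit_sq (c := c) (l := l) ha hb hs hab hε2 hw
  have h2 := PQ F (s := s) hab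
  have h3 : yk ε c l a b s ^ 2 = ((1 + xk c l a b s) * Rk c l a b s) *
      (pQ F b s - pP F a) ^ 2 := by
    unfold yk
    rw [mul_pow, sq (cst (wk ε c l) * rt (Uk ε c l a b s)), h1]
  have h4 : (pQ F b s - pP F a) ^ 2 = xx F a b s ^ 2 - 4 * (pP F a * pQ F b s) := by
    unfold xx; ring
  have h5 : ∏ j, ((xk c l a b s - cst (c j)) ^ 2 - incl (ft F)) =
      ((xk c l a b s - cst (c l)) ^ 2 - incl (ft F)) * Rk c l a b s :=
    (Finset.mul_prod_erase Finset.univ _ (Finset.mem_univ l)).symm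
  have h6 : xk c l a b s - cst (c l) = xx F a b s := by unfold xk; ring
  rw [h3, h4, h2, h5, h6, incl_ft]
  ring

/-- the polynomial `X + c l` -/
noncomputable def ql (c : κ → F) (l : κ) : Polynomial F := Polynomial.X + Polynomial.C (c l)

theorem Ep_xk (ha : 0 < a) : Ep a 0 (xk c l a b s) = (ql c l : PowerSeries F) := by
  unfold xk ql
  rw [Ep_add, Ep_cst ha, Ep_xx F ha]
  push_cast
  rw [add_comm]

theorem Em_xk (hb : 0 < b) : Em b 0 (xk c l a b s) = (ql c l : PowerSeries F) := by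
  unfold xk ql
  rw [Em_add, Em_cst hb, Em_xx F]
  push_cast
  rw [add_comm]

/-- the right side of the equation of the singular curve without the factor at `c l` -/
noncomputable def Vl (c : κ → F) (l : κ) : Polynomial F :=
  (1 + ql c l) * ∏ j ∈ Finset.univ.erase l, (ql c l - Polynomial.C (c j)) ^ 2

theorem Ep_V (ha : 0 < a) (hb : 0 < b) (hs : 0 < s) :
    Ep a 0 ((1 + xk c l a b s) * Rk c l a b s) = (Vl c l : PowerSeries F) := by
  rw [Ep_mul0 ha hb hs (Mc.one.add (Mc_xk ha hb hs)) (Mc_Rk ha hb hs), Ep_add, Ep_one ha,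
    Ep_xk ha]
  unfold Rk Vl
  rw [Ep_prod ha hb hs _ _ fun j _ => Mc_factor ha hb hs j]
  have h1 : ∀ j ∈ Finset.univ.erase l, Ep a 0 ((xk c l a b s - cst (c j)) ^ 2 - incl (ft F)) =
      (((ql c l - Polynomial.C (c j)) ^ 2 : Polynomial F) : PowerSeries F) := by
    intro j _
    rw [sub_eq_add_neg, Ep_add, Ep_neg, Ep_incl ha, coeff_ft, map_zero, neg_zero, add_zero,
      Ep_pow ha hb hs ((Mc_xk ha hb hs).sub (Mc_cst (c j))), sub_eq_add_neg (xk c l a b s),
      Ep_add, Ep_neg, Ep_cst ha, Ep_xk ha]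
    push_cast
    rw [sub_eq_add_neg]
  rw [Finset.prod_congr rfl h1]
  have h2 : (((∏ j ∈ Finset.univ.erase l, (ql c l - Polynomial.C (c j)) ^ 2 : Polynomial F)) :
      PowerSeries F) = ∏ j ∈ Finset.univ.erase l,
      (((ql c l - Polynomial.C (c j)) ^ 2 : Polynomial F) : PowerSeries F) :=
    map_prod (Polynomial.coeToPowerSeries.ringHom (R := F)) _ _
  rw [Polynomial.coe_mul, Polynomial.coe_add, Polynomial.coe_one, h2]

theorem Em_V (ha : 0 < a) (hb : 0 < b) (hs : 0 < s) :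
    Em b 0 ((1 + xk c l a b s) * Rk c l a b s) = (Vl c l : PowerSeries F) := by
  rw [Em_mul0 ha hb hs (Mc.one.add (Mc_xk ha hb hs)) (Mc_Rk ha hb hs), Em_add, Em_one hb,
    Em_xk hb]
  unfold Rk Vl
  rw [Em_prod ha hb hs _ _ fun j _ => Mc_factor ha hb hs j]
  have h1 : ∀ j ∈ Finset.univ.erase l, Em b 0 ((xk c l a b s - cst (c j)) ^ 2 - incl (ft F)) =
      (((ql c l - Polynomial.C (c j)) ^ 2 : Polynomial F) : PowerSeries F) := by
    intro j _
    rw [sub_eq_add_neg, Em_add, Em_neg, Em_incl hb, coeff_ft, map_zero, neg_zero, add_zero,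
      Em_pow ha hb hs ((Mc_xk ha hb hs).sub (Mc_cst (c j))), sub_eq_add_neg (xk c l a b s),
      Em_add, Em_neg, Em_cst hb, Em_xk hb]
    push_cast
    rw [sub_eq_add_neg]
  rw [Finset.prod_congr rfl h1]
  have h2 : (((∏ j ∈ Finset.univ.erase l, (ql c l - Polynomial.C (c j)) ^ 2 : Polynomial F)) :
      PowerSeries F) = ∏ j ∈ Finset.univ.erase l,
      (((ql c l - Polynomial.C (c j)) ^ 2 : Polynomial F) : PowerSeries F) :=
    map_prod (Polynomial.coeToPowerSeries.ringHom (R := F)) _ _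
  rw [Polynomial.coe_mul, Polynomial.coe_add, Polynomial.coe_one, h2]

/-- the two edges of the coordinate `y` -/
theorem edges_yk (ha : 0 < a) (hb : 0 < b) (hs : 0 < s) (hab : a + b = 1)
    (hε2 : ∀ l, ε l ^ 2 = 1 + c l) (hw : wk ε c l ≠ 0) : ∃ σ : PowerSeries F,
    σ * σ = (Vl c l : PowerSeries F) ∧ Ep a 0 (yk ε c l a b s) = -(σ * PowerSeries.X) ∧
      Em b 0 (yk ε c l a b s) = σ * PowerSeries.X := by
  have hrt := Mc_rtU (c := c) (l := l) ha hb hs hab hε2 hw
  have hu : Mc a b s 0 (cst (wk ε c l) * rt (Uk ε c l a b s)) := mcmul (Mc_cst _) hrt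
  obtain ⟨σ, hσ⟩ : ∃ σ, σ = Ep a 0 (cst (wk ε c l) * rt (Uk ε c l a b s)) := ⟨_, rfl⟩
  obtain ⟨σ', hσ'⟩ : ∃ σ', σ' = Em b 0 (cst (wk ε c l) * rt (Uk ε c l a b s)) := ⟨_, rfl⟩
  have h1 : σ * σ = (Vl c l : PowerSeries F) := by
    rw [hσ, ← Ep_mul0 ha hb hs hu hu, unit_sq ha hb hs hab hε2 hw, Ep_V ha hb hs]
  have h1' : σ' * σ' = (Vl c l : PowerSeries F) := by
    rw [hσ', ← Em_mul0 ha hb hs hu hu, unit_sq ha hb hs hab hε2 hw, Em_V ha hb hs]
  have c1 : PowerSeries.coeff 0 σ = wk ε c l := by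
    rw [hσ, Ep_mul0 ha hb hs (Mc_cst _) hrt, Ep_cst ha, PowerSeries.coeff_C_mul]
    simp only [Ep, PowerSeries.coeff_mk]
    have := cf_rt (Uk ε c l a b s)
    simp [this]
  have c2 : PowerSeries.coeff 0 σ' = wk ε c l := by
    rw [hσ', Em_mul0 ha hb hs (Mc_cst _) hrt, Em_cst hb, PowerSeries.coeff_C_mul]
    simp only [Em, PowerSeries.coeff_mk]
    have := cf_rt (Uk ε c l a b s)
    simp [this]
  have h3 : σ = σ' := by
    have h4 : (σ - σ') * (σ + σ') = 0 := by linear_combination h1 - h1'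
    rcases mul_eq_zero.1 h4 with h5 | h5
    · exact sub_eq_zero.1 h5
    · exfalso
      have h6 := congrArg (PowerSeries.coeff 0) h5
      rw [map_add, c1, c2, map_zero] at h6
      have h7 : (2 : F) * wk ε c l = 0 := by rw [← h6]; ring
      exact (mul_ne_zero two_ne_zero hw) h7
  refine ⟨σ, h1, ?_, ?_⟩
  · unfold yk
    rw [Ep_mul0 ha hb hs hu ((Mc_Q F ha hb hs).sub (Mc_P F ha hb hs)), ← hσ, sub_eq_add_neg,
      Ep_add, Ep_neg, Ep_Q, Ep_P F ha, zero_add]
    ring
  · unfold yk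
    rw [Em_mul0 ha hb hs hu ((Mc_Q F ha hb hs).sub (Mc_P F ha hb hs)), ← hσ', ← h3,
      sub_eq_add_neg, Em_add, Em_neg, Em_Q, Em_P F, neg_zero, add_zero]

end coord

end Pool.Agent.TH146.MN
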